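import Pool.Agent.J4H4.LA.Gen
import Pool.Agent.J4H2.DN.W3

set_option autoImplicit false

/-!
# The density theorem
-/

namespace Pool.Agent.J4H4.LA

open Complex Set Filter Topology MeasureTheory
open scoped ComplexConjugate
open Pool.Agent.J4H2.DN (fy ProW grow S_Z t_volW)

/-- the deterministic part -/
theorem pro_pos : ∃ η M : ℝ, 0 < η ∧ η ≤ 1 / 2 ∧ 1 ≤ M ∧ ∀ (t L K : ℝ) (m : ℕ), 0 < L → M ≤ K → K ≤ 8 * L →
    ProW 512 K L η (fy t) → K ≤ m → (m : ℝ) ≤ 2 * K → Even m → 0 < Lg m t := by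
  have hκ : 0 < kap (1 / 4) := by unfold kap; norm_num
  have hκ1 : kap (1 / 4) ≤ 1 / 100 := by unfold kap; norm_num
  refine ⟨kap (1 / 4) / 2, 1000000000000, by positivity, by linarith, by norm_num, ?_⟩
  intro t L K m hL hM hKL hP hKm hm2 hme
  obtain ⟨κ, hκd⟩ : ∃ κ : ℝ, κ = kap (1 / 4) := ⟨_, rfl⟩
  rw [← hκd] at hκ hκ1 hP
  have hK0 : 0 < K := by linarith
  have hm0 : (0 : ℝ) < m := by linarith
  obtain ⟨r, hr⟩ : ∃ r : ℝ, r = m / L := ⟨_, rfl⟩
  have hr0 : 0 < r := by rw [hr]; positivity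
  have hrL : L * r = m := by rw [hr]; field_simp
  obtain ⟨k, hk⟩ : ∃ k : ℝ, k = K / L := ⟨_, rfl⟩
  have hk0 : 0 < k := by rw [hk]; positivity
  have hkr : k ≤ r := by rw [hk, hr]; gcongr
  have hrk : r ≤ 2 * k := by
    rw [hk, hr, ← mul_div_assoc]
    gcongr
  have hk8 : k ≤ 8 := by rw [hk, div_le_iff₀ hL]; exact hKL
  have e1 : K / (8 * L) = k / 8 := by rw [hk]; field_simp
  have e2 : 8 * K / L = 8 * k := by rw [hk]; ring
  have hne : ∀ w : ℂ, k / 8 ≤ w.re → w.re ≤ 512 → |w.im| ≤ 8 * k →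
      fy t w ≠ 0 ∧ ‖logDeriv (fy t) w - L / 2‖ ≤ κ / 2 * L := fun w h1 h2 h3 =>
    hP.ne w (by rw [e1]; exact h1) h2 (by rw [e2]; exact h3)
  have hnear : ∀ w : ℂ, 0 ≤ w.re → w.re ≤ k / 8 → |w.im| ≤ 8 * k →
      ‖fy t w‖ ≤ Real.exp (κ / 2 * K) * ‖fy t (((k / 8 : ℝ) : ℂ) + w.im * I)‖ := fun w h1 h2 h3 => by
    have := hP.near w h1 (by rw [e1]; exact h2) (by rw [e2]; exact h3)
    rwa [e1] at this
  have hgrow : ∀ a v : ℝ, k / 8 ≤ a → a ≤ r / 2 → |v| ≤ 8 * k →
      ‖fy t ((a : ℂ) + v * I)‖ ≤ ‖fy t (((r / 2 : ℝ) : ℂ) + v * I)‖ := fun a v h1 h2 h3 => by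
    refine grow (fy_diff' t) (L := L) (M := κ / 2 * L) h2 (by nlinarith) fun x hx1 hx2 => ?_
    exact hne _ (by simp; linarith) (by simp; linarith) (by simpa using h3)
  have H : Hp t L r (1 / 4) (kap (1 / 4)) m := by
    rw [← hκd]
    have e3 : (1 - 2 * (1 / 4)) * r = r / 2 := by ring
    refine ⟨fun w h1 h2 h3 => ?_, fun w h1 h2 h3 => ?_⟩
    · rw [e3] at h1
      obtain ⟨a1, a2⟩ := hne w (by linarith) (by linarith) (by linarith)
      refine ⟨a1, ?_⟩
      have e4 : ((L / 2 : ℝ) : ℂ) = (L : ℂ) / 2 := by push_cast; ring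
      rw [e4]
      linarith
    · rw [e3] at h2 ⊢
      have hexp : 1 ≤ Real.exp (κ * m / 2) := Real.one_le_exp (by positivity)
      rcases le_total w.re (k / 8) with h | h
      · have h5 := hnear w h1 h (by linarith)
        have h6 := hgrow (k / 8) w.im le_rfl (by linarith) (by linarith)
        have h7 : Real.exp (κ / 2 * K) ≤ Real.exp (κ * m / 2) := by
          apply Real.exp_le_exp.mpr
          have : κ * K ≤ κ * m := by gcongr
          linarith
        calc ‖fy t w‖ ≤ _ := h5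
          _ ≤ Real.exp (κ * m / 2) * ‖fy t (((r / 2 : ℝ) : ℂ) + w.im * I)‖ := by gcongr
      · have h6 := hgrow w.re w.im h h2 (by linarith)
        rw [Complex.re_add_im] at h6
        calc ‖fy t w‖ ≤ 1 * ‖fy t (((r / 2 : ℝ) : ℂ) + w.im * I)‖ := by rw [one_mul]; exact h6
          _ ≤ _ := by gcongr
  have hm12 : (1000000000000 : ℝ) ≤ m := by linarith
  refine H.pos (by norm_num) le_rfl hr0 hrL hm12 (le_trans ?_ hm12) hme
  norm_num

theorem t_den (hZ : S_Z) : S_den := by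
  obtain ⟨η, M, hη, hη2, hM, hpos⟩ := pro_pos
  obtain ⟨c, C, hc, hC, hv⟩ := t_volW hZ η hη hη2
  obtain ⟨B, hB⟩ := gen_pos (c := 1) (by norm_num)
  obtain ⟨A, hA⟩ : ∃ A : ℝ, A = max B 0 := ⟨_, rfl⟩
  have hA0 : 0 ≤ A := by rw [hA]; exact le_max_right _ _
  have hAB : B ≤ A := by rw [hA]; exact le_max_left _ _
  obtain ⟨C', hC'⟩ : ∃ C' : ℝ, C' = 2 * C + M + 1 / c + Real.exp (A + 2) := ⟨_, rfl⟩
  have hc1 : 0 < 1 / c := by positivity
  have hexpA := Real.exp_pos (A + 2)
  refine ⟨c, C', hc, fun T K hT hK => ?_⟩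
  have hTC : C ≤ T := by rw [hC'] at hT; linarith
  have hKC : C ≤ K := by rw [hC'] at hK; linarith
  have hKM : M ≤ K := by rw [hC'] at hK; linarith
  have hKc : 1 ≤ c * K := by
    have h1 : 1 / c ≤ K := by rw [hC'] at hK; linarith
    rw [div_le_iff₀ hc] at h1
    linarith
  have hTe : Real.exp (A + 2) ≤ T := by rw [hC'] at hT; linarith
  have hT0 : 0 < T := hexpA.trans_le hTe
  have hK0 : 0 < K := by linarith
  have hlogT : A + 2 ≤ Real.log T := by
    have := Real.log_le_log hexpA hTe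
    rwa [Real.log_exp] at this
  have hlog0 : 0 < Real.log T := by linarith
  have hT1 : 1 ≤ T := by
    have := Real.add_one_le_exp (A + 2)
    linarith
  set S : ℕ → Set ℝ := fun j => {y : ℝ | (2 : ℝ) ^ j * K ≤ 8 * Real.log T ∧
    (T ≤ y ∧ y ≤ 2 * T ∧ ¬ ProW 512 ((2 : ℝ) ^ j * K) (Real.log T) η (fy y))} with hS
  have hcover : {t : ℝ | T ≤ t ∧ t ≤ 2 * T ∧ ∃ m : ℕ, K ≤ m ∧ Lg m t < 0} ⊆ ⋃ j, S j := by
    rintro t ⟨h1, h2, m, h3, h4⟩
    have hme : Even m := by
      by_contra hodd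
      rw [Lg_odd hodd] at h4
      exact lt_irrefl _ h4
    have hm8 : (m : ℝ) ≤ 8 * Real.log T := by
      by_contra hcon
      push Not at hcon
      have h5 := hB t m (by
        rw [abs_of_nonneg (by linarith), one_mul]
        have h6 : Real.log (2 + t) ≤ Real.log (Real.exp 2 * T) := by
          apply Real.log_le_log (by linarith)
          have := Real.add_one_le_exp (2 : ℝ)
          have h7 : Real.exp 2 = Real.exp 1 * Real.exp 1 := by rw [← Real.exp_add]; norm_num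
          have h8 := Real.exp_one_gt_d9
          nlinarith
        rw [Real.log_mul (Real.exp_pos _).ne' hT0.ne', Real.log_exp] at h6
        linarith) hme
      linarith
    obtain ⟨j, hj1, hj2⟩ := exists_nat_pow_near (x := (m : ℝ) / K) (y := 2) (by
      rw [le_div_iff₀ hK0, one_mul]; exact h3) one_lt_two
    rw [le_div_iff₀ hK0] at hj1
    rw [div_lt_iff₀ hK0, pow_succ] at hj2
    refine mem_iUnion.mpr ⟨j, ?_⟩
    refine ⟨by linarith, h1, h2, fun hP => ?_⟩
    have h2j : (1 : ℝ) ≤ 2 ^ j := one_le_pow₀ (by norm_num)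
    have := hpos t (Real.log T) ((2 : ℝ) ^ j * K) m hlog0 (by nlinarith) (by linarith) hP hj1
      (by linarith) hme
    linarith
  have hvol : ∀ j, volume (S j) ≤ ENNReal.ofReal (C * T * Real.exp (-(c * K)) * (1 / 2) ^ j) := by
    intro j
    by_cases hj : (2 : ℝ) ^ j * K ≤ 8 * Real.log T
    · have h2j : (1 : ℝ) ≤ 2 ^ j := one_le_pow₀ (by norm_num)
      have h1 := hv T ((2 : ℝ) ^ j * K) hTC (by nlinarith) hj
      refine (measure_mono fun y hy => hy.2).trans (h1.trans (ENNReal.ofReal_le_ofReal ?_))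
      have h2 : Real.exp (-(c * ((2 : ℝ) ^ j * K))) ≤ Real.exp (-(c * K)) * (1 / 2) ^ j := by
        have h3 : ((j : ℝ) + 1) ≤ 2 ^ j := by exact_mod_cast Nat.lt_two_pow_self (n := j)
        have h4 : Real.exp (-(c * ((2 : ℝ) ^ j * K))) ≤ Real.exp (-(c * K)) * Real.exp (-1 * j) := by
          rw [← Real.exp_add]
          apply Real.exp_le_exp.mpr
          nlinarith
        refine h4.trans ?_
        have h5 : Real.exp (-1 * (j : ℝ)) = Real.exp (-1) ^ j := by
          rw [← Real.exp_nat_mul]; congr 1; ring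
        have h6 : Real.exp (-1 : ℝ) ≤ 1 / 2 := by
          rw [Real.exp_neg, inv_eq_one_div]
          apply one_div_le_one_div_of_le (by norm_num)
          have := Real.add_one_le_exp (1 : ℝ)
          linarith
        rw [h5]
        gcongr
      rw [mul_assoc (C * T)]
      gcongr
    · have : S j = ∅ := by
        ext y
        simp only [hS, mem_ofPred_eq, mem_empty_iff_false, iff_false]
        rintro ⟨h1, -⟩
        exact hj h1
      rw [this, measure_empty]
      exact zero_le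
  have hsum : Summable fun j : ℕ => C * T * Real.exp (-(c * K)) * (1 / 2 : ℝ) ^ j :=
    (summable_geometric_of_lt_one (by norm_num) (by norm_num)).mul_left _
  calc volume {t : ℝ | T ≤ t ∧ t ≤ 2 * T ∧ ∃ m : ℕ, K ≤ m ∧ Lg m t < 0}
      ≤ volume (⋃ j, S j) := measure_mono hcover
    _ ≤ ∑' j, volume (S j) := measure_iUnion_le _
    _ ≤ ∑' j, ENNReal.ofReal (C * T * Real.exp (-(c * K)) * (1 / 2) ^ j) := ENNReal.tsum_le_tsum hvol
    _ = ENNReal.ofReal (∑' j, C * T * Real.exp (-(c * K)) * (1 / 2 : ℝ) ^ j) :=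
        (ENNReal.ofReal_tsum_of_nonneg (fun j => by positivity) hsum).symm
    _ ≤ ENNReal.ofReal (C' * T * Real.exp (-(c * K))) := by
        apply ENNReal.ofReal_le_ofReal
        rw [tsum_mul_left, tsum_geometric_two]
        have h1 : 2 * C ≤ C' := by rw [hC']; linarith
        have h2 : C * T * Real.exp (-(c * K)) * 2 = (2 * C) * T * Real.exp (-(c * K)) := by ring
        rw [h2]
        gcongr

end Pool.Agent.J4H4.LA
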