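import Pool.Agent.J4H4.LA.Gen
import Pool.Agent.J4H1.JP.Ze4
import Pool.Agent.J4H2.DN.W2

set_option autoImplicit false

/-!
# The threshold when `ζ` has no zeros in `Re s > θ`
-/

namespace Pool.Agent.J4H4.LA

open Complex Set Filter Topology MeasureTheory
open scoped ComplexConjugate
open Pool.Agent.J4H1.JP (Xi diff_Xi Xi_neg Xi_conj Hz gz dz Qz ZF Xi_der Xi_Hz gz_ne dz_near dQz_small strip_bound)
open Pool.Agent.J4H2.DN (fy grow)

theorem thr_pos0 {θ c : ℝ} (hθ0 : 1 / 2 ≤ θ) (hθ1 : θ < 1) (hz : ∀ s : ℂ, θ < s.re → riemannZeta s ≠ 0)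
    (hc : θ - 1 / 2 < c) (hc1 : c ≤ 1) : ∃ B : ℝ, ∀ (t : ℝ) (m : ℕ), c * Real.log (2 + |t|) + B ≤ m → Even m →
    0 < Lg m t := by
  have hc0 : 0 < c := by linarith
  obtain ⟨β, hβd⟩ : ∃ β : ℝ, β = (c + (θ - 1 / 2)) / 2 := ⟨_, rfl⟩
  have hβ1 : θ - 1 / 2 < β := by linarith
  have hβ2 : β < c := by linarith
  have hβ0 : 0 < β := by linarith
  have hZF : ZF θ := fun ε hε => ⟨0, fun s hs _ => hz s (by linarith)⟩
  obtain ⟨δ, hδd⟩ : ∃ δ : ℝ, δ = min (1 / 4) ((c - β) / (2 * c)) := ⟨_, rfl⟩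
  have hδ : 0 < δ := by
    rw [hδd]
    exact lt_min (by norm_num) (div_pos (by linarith) (by linarith))
  have hδ' : δ ≤ 1 / 4 := by rw [hδd]; exact min_le_left _ _
  have hδc : β ≤ (1 - 2 * δ) * c := by
    have h1 : δ ≤ (c - β) / (2 * c) := by rw [hδd]; exact min_le_right _ _
    rw [le_div_iff₀ (by positivity)] at h1
    nlinarith
  obtain ⟨κ, hκd⟩ : ∃ κ : ℝ, κ = kap δ := ⟨_, rfl⟩
  have hκ : 0 < κ := by rw [hκd]; unfold kap; positivity
  have hκ1 : κ ≤ 1 := by
    rw [hκd]; unfold kap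
    nlinarith
  obtain ⟨q, hqd⟩ : ∃ q : ℝ, q = κ * c / 100 := ⟨_, rfl⟩
  have hq : 0 < q := by rw [hqd]; positivity
  have hqκ : q ≤ κ / 100 := by
    rw [hqd]
    have : κ * c ≤ κ * 1 := by gcongr
    linarith
  obtain ⟨T1, hT1⟩ := dQz_small hθ0 hθ1 hZF hβ1 hq
  obtain ⟨B0, hB0, hst⟩ := strip_bound hθ0 hθ1 hZF hβ1 (by linarith) hq (by linarith)
  obtain ⟨Bg, hBg⟩ := gen_pos (c := 1) (by norm_num)
  obtain ⟨G, hG⟩ : ∃ G : ℝ, G = max Bg 0 := ⟨_, rfl⟩
  have hG0 : 0 ≤ G := by rw [hG]; exact le_max_right _ _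
  have hGB : Bg ≤ G := by rw [hG]; exact le_max_left _ _
  obtain ⟨T0, hT0⟩ : ∃ T0 : ℝ, T0 = max T1 0 + 40 + Real.exp (4 * (1 + G) + 28 / κ) := ⟨_, rfl⟩
  have hexp := Real.exp_pos (4 * (1 + G) + 28 / κ)
  have hmx0 : 0 ≤ max T1 0 := le_max_right _ _
  have hmx1 : T1 ≤ max T1 0 := le_max_left _ _
  have hdiv : 0 ≤ 28 / κ := by positivity
  refine ⟨Real.log (2 + T0) + G + 1000000000000 + 10000 / δ ^ 2 + 4 * B0 / κ, ?_⟩
  have hp1 : 0 ≤ 10000 / δ ^ 2 := by positivity
  have hp2 : 0 ≤ 4 * B0 / κ := by positivity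
  have hlogT0 : 0 ≤ Real.log (2 + T0) := Real.log_nonneg (by linarith)
  -- the case `t ≥ 0`
  have main : ∀ (t : ℝ) (m : ℕ), 0 ≤ t →
      c * Real.log (2 + |t|) + (Real.log (2 + T0) + G + 1000000000000 + 10000 / δ ^ 2 + 4 * B0 / κ) ≤ m → Even m →
      0 < Lg m t := by
    intro t m ht0 hm hme
    have habs : |t| = t := abs_of_nonneg ht0
    have hlogt2 : 0 ≤ Real.log (2 + |t|) := Real.log_nonneg (by linarith [abs_nonneg t])
    have hcl : 0 ≤ c * Real.log (2 + |t|) := by positivity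
    rcases le_total t T0 with htT | htT
    · refine hBg t m ?_ hme
      have : Real.log (2 + |t|) ≤ Real.log (2 + T0) := Real.log_le_log (by rw [habs]; linarith) (by rw [habs]; linarith)
      linarith
    have ht40 : 40 ≤ t := by linarith
    have htp : 0 < t := by linarith
    obtain ⟨ℓ, hℓd⟩ : ∃ ℓ : ℝ, ℓ = Real.log t := ⟨_, rfl⟩
    have hℓ1 : 4 * (1 + G) + 28 / κ ≤ ℓ := by
      have := Real.log_le_log hexp (show Real.exp (4 * (1 + G) + 28 / κ) ≤ t by linarith)
      rwa [Real.log_exp, ← hℓd] at this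
    have hℓ0 : 0 < ℓ := by linarith
    have hℓ2 : Real.log (2 + |t|) ≤ ℓ + 1 := by
      have h1 : Real.log (2 + |t|) ≤ Real.log (Real.exp 1 * t) := by
        rw [habs]
        apply Real.log_le_log (by linarith)
        have := Real.add_one_le_exp (1 : ℝ)
        nlinarith
      rw [Real.log_mul (Real.exp_pos _).ne' htp.ne', Real.log_exp, ← hℓd] at h1
      linarith
    have hℓ3 : ℓ ≤ Real.log (2 + |t|) := by
      rw [hℓd, habs]
      exact Real.log_le_log htp (by linarith)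
    rcases le_or_gt (5 / 4 * ℓ) m with hbig | hsm
    · refine hBg t m ?_ hme
      linarith
    -- the local range
    have hm0 : (0 : ℝ) < m := by linarith
    obtain ⟨r, hr⟩ : ∃ r : ℝ, r = m / ℓ := ⟨_, rfl⟩
    have hr0 : 0 < r := by rw [hr]; positivity
    have hℓr : ℓ * r = m := by rw [hr]; field_simp
    have hr1 : r ≤ 5 / 4 := by rw [hr, div_le_iff₀ hℓ0]; exact hsm.le
    have hcℓ : c * ℓ ≤ m := by
      have : c * ℓ ≤ c * Real.log (2 + |t|) := by gcongr
      linarith
    have hrc : c ≤ r := by rw [hr, le_div_iff₀ hℓ0]; exact hcℓ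
    obtain ⟨b, hbd⟩ : ∃ b : ℝ, b = (1 - 2 * δ) * r := ⟨_, rfl⟩
    have hβb : β ≤ b := by
      rw [hbd]
      have : (1 - 2 * δ) * c ≤ (1 - 2 * δ) * r := by
        have : 0 ≤ 1 - 2 * δ := by linarith
        gcongr
      linarith
    have hbr : b ≤ r := by rw [hbd]; nlinarith
    have hκℓ : 28 ≤ κ * ℓ := by
      have h1 : 28 / κ ≤ ℓ := by linarith
      rw [div_le_iff₀ hκ] at h1
      linarith
    have hloc : ∀ w : ℂ, β ≤ w.re → w.re ≤ 15 / 4 → |w.im| ≤ 15 / 4 →
        fy t w ≠ 0 ∧ ‖logDeriv (fy t) w - ((ℓ / 2 : ℝ) : ℂ)‖ ≤ κ * ℓ / 2 := by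
      intro w h1 h2 h3
      obtain ⟨z, hzd⟩ : ∃ z : ℂ, z = I * t + w := ⟨_, rfl⟩
      have hzre : z.re = w.re := by
        rw [hzd, add_re, I_mul_re, ofReal_im]; ring
      have hzim : z.im = t + w.im := by
        rw [hzd, add_im, I_mul_im, ofReal_re]
      have hzn : ‖z - I * t‖ ≤ 8 := by
        have : z - I * t = w := by rw [hzd]; ring
        rw [this]
        refine (Complex.norm_le_abs_re_add_abs_im _).trans ?_
        rw [abs_of_nonneg (by linarith)]
        linarith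
      obtain ⟨a1, a2, -, -, -⟩ := hT1 t (by linarith) z (by rw [hzre]; exact h1) (by
        rw [hzim, add_sub_cancel_left]; linarith)
      rw [← hℓd] at a2
      have hzpos : -1 / 2 ≤ z.re := by rw [hzre]; linarith
      have hXi : Xi z ≠ 0 := by
        rw [Xi_Hz hzpos]
        exact mul_ne_zero a1 (gz_ne hzpos)
      have hfy : fy t w = Xi z := by rw [hzd]; rfl
      have hder := Xi_der hzpos a1
      have hd : HasDerivAt (fy t) (Xi z * (dz z + Qz z)) w := by
        have h5 : HasDerivAt (fun w : ℂ => I * t + w) 1 w := (hasDerivAt_id w).const_add _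
        rw [hzd] at hder ⊢
        have h6 := HasDerivAt.comp w hder h5
        rw [mul_one] at h6
        exact h6
      refine ⟨by rw [hfy]; exact hXi, ?_⟩
      have e1 : logDeriv (fy t) w = dz z + Qz z := by
        rw [logDeriv_apply, hd.deriv, hfy, mul_div_cancel_left₀ _ hXi]
      have h7 := dz_near ht40 (z := z) (by rw [hzre]; linarith) hzn
      rw [← hℓd] at h7
      have e2 : dz z + Qz z - ((ℓ / 2 : ℝ) : ℂ) = (dz z - ((1 / 2 * ℓ : ℝ) : ℂ)) + Qz z := by
        push_cast; ring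
      rw [e1, e2]
      refine (norm_add_le _ _).trans ?_
      have h8 : q * ℓ ≤ κ / 100 * ℓ := by gcongr
      linarith
    have hgrow : ∀ a v : ℝ, β ≤ a → a ≤ b → |v| ≤ 5 / 2 →
        ‖fy t ((a : ℂ) + v * I)‖ ≤ ‖fy t ((b : ℂ) + v * I)‖ := fun a v h1 h2 h3 => by
      refine grow (fy_diff' t) (L := ℓ) (M := κ * ℓ / 2) h2 (by nlinarith) fun x hx1 hx2 => ?_
      have := hloc ((x : ℂ) + v * I) (by simp; linarith) (by simp; linarith) (by simp; linarith)
      have e : ((ℓ / 2 : ℝ) : ℂ) = (ℓ : ℂ) / 2 := by push_cast; ring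
      rwa [e] at this
    have H : Hp t ℓ r δ (kap δ) m := by
      rw [← hκd]
      refine ⟨fun w h1 h2 h3 => ?_, fun w h1 h2 h3 => ?_⟩
      · rw [← hbd] at h1
        exact hloc w (by linarith) (by linarith) (by linarith)
      · rw [← hbd] at h2 ⊢
        have hexp1 : 1 ≤ Real.exp (κ * m / 2) := Real.one_le_exp (by positivity)
        rcases le_total w.re β with h | h
        · obtain ⟨z, hzd⟩ : ∃ z : ℂ, z = I * t + w := ⟨_, rfl⟩
          have hzre : z.re = w.re := by
            rw [hzd, add_re, I_mul_re, ofReal_im]; ring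
          have hzim : z.im = t + w.im := by
            rw [hzd, add_im, I_mul_im, ofReal_re]
          have hfy : fy t w = Xi z := by rw [hzd]; rfl
          have h5 := hst z (by rw [hzre]; exact h1) (by rw [hzre]; exact h)
          obtain ⟨z', hz'⟩ : ∃ z' : ℂ, z' = (β : ℂ) + z.im * I := ⟨_, rfl⟩
          rw [← hz'] at h5
          have hz're : z'.re = β := by rw [hz']; simp
          have hz'im : z'.im = z.im := by rw [hz']; simp
          obtain ⟨a1, -, -, a4, -⟩ := hT1 t (by linarith) z' (by rw [hz're]) (by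
            rw [hz'im, hzim, add_sub_cancel_left]; linarith)
          rw [← hℓd] at a4
          have hXi' : ‖Xi z'‖ = ‖Hz z'‖ * ‖gz z'‖ := by rw [Xi_Hz (by rw [hz're]; linarith), norm_mul]
          have hg : ‖gz z'‖ ≤ Real.exp (q * ℓ) * ‖Xi z'‖ := by
            rw [hXi']
            calc ‖gz z'‖ = Real.exp (q * ℓ) * (Real.exp (-(q * ℓ)) * ‖gz z'‖) := by
                  rw [← mul_assoc, ← Real.exp_add]; simp
              _ ≤ Real.exp (q * ℓ) * (‖Hz z'‖ * ‖gz z'‖) := by gcongr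
          have hfy' : fy t ((β : ℂ) + w.im * I) = Xi z' := by
            show Xi (I * t + ((β : ℂ) + w.im * I)) = Xi z'
            rw [hz', hzim]
            congr 1
            push_cast
            ring
          have h6 := hgrow β w.im le_rfl hβb (by linarith)
          rw [hfy'] at h6
          have hlog : Real.log (1 + |z.im|) ≤ 2 * ℓ := by
            rw [hzim, hℓd]
            have h7 : |t + w.im| ≤ t + 5 / 2 := (abs_add_le _ _).trans (by rw [habs]; linarith)
            have : Real.log (1 + |t + w.im|) ≤ Real.log (t ^ 2) := Real.log_le_log (by positivity) (by nlinarith)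
            rw [Real.log_pow] at this
            exact_mod_cast this
          have hB0e : B0 ≤ Real.exp B0 := by linarith [Real.add_one_le_exp B0]
          rw [hfy]
          calc ‖Xi z‖ ≤ B0 * Real.exp (q * Real.log (1 + |z.im|)) * ‖gz z'‖ := h5
            _ ≤ Real.exp B0 * Real.exp (q * (2 * ℓ)) * (Real.exp (q * ℓ) * ‖Xi z'‖) := by gcongr
            _ = Real.exp (B0 + 3 * (q * ℓ)) * ‖Xi z'‖ := by
                rw [Real.exp_add, show 3 * (q * ℓ) = q * (2 * ℓ) + q * ℓ by ring, Real.exp_add]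
                ring
            _ ≤ Real.exp (κ * m / 2) * ‖fy t ((b : ℂ) + w.im * I)‖ := by
                have h8 : B0 + 3 * (q * ℓ) ≤ κ * m / 2 := by
                  have h9 : 4 * B0 ≤ κ * m := by
                    have h1 : 4 * B0 / κ ≤ m := by linarith
                    rw [div_le_iff₀ hκ] at h1
                    linarith
                  have h10 : q * ℓ = κ / 100 * (c * ℓ) := by rw [hqd]; ring
                  have h11 : κ / 100 * (c * ℓ) ≤ κ / 100 * m := by gcongr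
                  linarith
                gcongr
        · have h6 := hgrow w.re w.im h h2 (by linarith)
          rw [Complex.re_add_im] at h6
          calc ‖fy t w‖ ≤ 1 * ‖fy t ((b : ℂ) + w.im * I)‖ := by rw [one_mul]; exact h6
            _ ≤ _ := by gcongr
    exact H.pos hδ hδ' hr0 hℓr (by linarith) (by linarith) hme
  intro t m hm hme
  rcases le_total 0 t with h | h
  · exact main t m h hm hme
  · rw [← Lg_negt]
    exact main (-t) m (by linarith) (by rwa [abs_neg]) hme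

/-- strict form -/
theorem thr_pos {θ c : ℝ} (hθ0 : 1 / 2 ≤ θ) (hθ1 : θ ≤ 1) (hz : ∀ s : ℂ, θ < s.re → riemannZeta s ≠ 0)
    (hc : θ - 1 / 2 < c) : ∃ B : ℝ, ∀ (t : ℝ) (m : ℕ), c * Real.log (2 + |t|) + B ≤ m → Even m →
    0 < Lg m t := by
  rcases eq_or_lt_of_le hθ1 with h | h
  · exact gen_pos (by linarith)
  · obtain ⟨B, hB⟩ := thr_pos0 hθ0 h hz (c := min c 1) (lt_min hc (by linarith)) (min_le_right _ _)
    refine ⟨B, fun t m hm hme => hB t m (le_trans ?_ hm) hme⟩
    have : 0 ≤ Real.log (2 + |t|) := Real.log_nonneg (by linarith [abs_nonneg t])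
    have h2 : min c 1 ≤ c := min_le_left _ _
    gcongr

theorem t_thr : S_thr := by
  intro θ hθ0 hθ1 hz c hc
  obtain ⟨B, hB⟩ := thr_pos hθ0 hθ1 hz hc
  refine ⟨B, fun t m hm => ?_⟩
  by_cases hme : Even m
  · exact (hB t m hm hme).le
  · rw [Lg_odd hme]

end Pool.Agent.J4H4.LA
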