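import Pool.Agent.J4H4.Mea
import Pool.Agent.J4H4.Dist
import Pool.Agent.J4H4.LA.Thr
import Pool.Agent.J4H4.LA.Den
import Pool.Agent.J4H6.LA.Cnv
import Pool.Agent.J4H3.DN.Z
import Pool.Agent.J4H5.MM.Fin

set_option autoImplicit false

/-! # Project LA: assembly -/

namespace Pool.Agent.J4H4.LA

open Complex Set Filter Topology MeasureTheory
open Pool.Agent.J4H4.Fin (xi Lag)

/-- the real derivative -/
lemma lag_eq (m : ℕ) (t : ℝ) :
    iteratedDeriv m (fun a : ℝ => ‖xi (1 / 2 + a + t * I)‖ ^ 2) 0 = Lg m t := by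
  rw [Pool.Agent.J4H4.Fin.iter_real (Pool.Agent.J4H4.Fin.hasSum_abs t) m]
  have e : Pool.Agent.J4H4.Str.Gt t = FF t := by
    funext z
    unfold Pool.Agent.J4H4.Str.Gt FF
    congr 2 <;> ring
  have h : Pool.Agent.J4H4.Str.g t m = iteratedDeriv m (FF t) 0 / m.factorial := by
    unfold Pool.Agent.J4H4.Str.g
    rw [e]
  rw [h, Complex.div_natCast_re]
  unfold Lg
  have : (m.factorial : ℝ) ≠ 0 := by exact_mod_cast m.factorial_ne_zero
  field_simp

/-- the density theorem, all `K ≥ 0` -/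
theorem t_den0 : ∃ c C : ℝ, 0 < c ∧ ∀ T K : ℝ, C ≤ T → 0 ≤ K →
    volume {t : ℝ | T ≤ t ∧ t ≤ 2 * T ∧ ∃ m : ℕ, K ≤ m ∧ Lg m t < 0} ≤ ENNReal.ofReal (C * T * Real.exp (-(c * K))) := by
  obtain ⟨c, C, hc, h⟩ := t_den (J4H3.DN.t_Z J4H5.MM.t_MM)
  refine ⟨c, max C 1 + Real.exp (c * C), hc, fun T K hT hK => ?_⟩
  have h1 : C ≤ max C 1 := le_max_left _ _
  have h2 : 1 ≤ max C 1 := le_max_right _ _
  have h3 := Real.exp_pos (c * C)
  have hT0 : 0 < T := by linarith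
  rcases le_total C K with hK2 | hK2
  · refine (h T K (by linarith) hK2).trans (ENNReal.ofReal_le_ofReal ?_)
    have : C ≤ max C 1 + Real.exp (c * C) := by linarith
    gcongr
  · calc volume {t : ℝ | T ≤ t ∧ t ≤ 2 * T ∧ ∃ m : ℕ, K ≤ m ∧ Lg m t < 0} ≤ volume (Icc T (2 * T)) :=
          measure_mono fun t ht => ⟨ht.1, ht.2.1⟩
      _ = ENNReal.ofReal T := by rw [Real.volume_Icc]; congr 1; ring
      _ ≤ _ := by
        apply ENNReal.ofReal_le_ofReal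
        have h4 : Real.exp (c * C) * Real.exp (-(c * K)) ≥ 1 := by
          rw [← Real.exp_add]
          apply Real.one_le_exp
          nlinarith
        have h5 : (max C 1 + Real.exp (c * C)) * T * Real.exp (-(c * K)) =
            max C 1 * T * Real.exp (-(c * K)) + T * (Real.exp (c * C) * Real.exp (-(c * K))) := by ring
        rw [h5]
        have h6 : 0 ≤ max C 1 * T * Real.exp (-(c * K)) := by positivity
        nlinarith

/-- the equivalence -/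
theorem quasi : (∃ c B : ℝ, c < 1 / 2 ∧ ∀ (t : ℝ) (m : ℕ), c * Real.log (2 + |t|) + B ≤ m → 0 ≤ Lg m t) ↔
    ∃ σ : ℝ, σ < 1 ∧ ∀ s : ℂ, σ < s.re → riemannZeta s ≠ 0 := by
  constructor
  · rintro ⟨c, B, hc, h⟩
    obtain ⟨δ, hδ, h2⟩ := Pool.Agent.J4H6.LA.t_cnv c hc ⟨B, h⟩
    exact ⟨1 - δ, by linarith, h2⟩
  · rintro ⟨σ, hσ, h⟩
    obtain ⟨θ, hθ⟩ : ∃ θ : ℝ, θ = max σ (1 / 2) := ⟨_, rfl⟩
    have h1 : 1 / 2 ≤ θ := by rw [hθ]; exact le_max_right _ _
    have h2 : θ < 1 := by rw [hθ]; exact max_lt hσ (by norm_num)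
    have h3 : σ ≤ θ := by rw [hθ]; exact le_max_left _ _
    obtain ⟨B, hB⟩ := t_thr θ h1 h2.le (fun s hs => h s (by linarith)) ((θ - 1 / 2 + 1 / 2) / 2) (by linarith)
    exact ⟨(θ - 1 / 2 + 1 / 2) / 2, B, by linarith, hB⟩

end Pool.Agent.J4H4.LA
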