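import Pool.Agent.J4H4.LA.Pos2
import Pool.Agent.J4H2.DN.Stm
import Pool.Agent.J4H1.JP.Shp

set_option autoImplicit false

/-!
# Basic facts on `FF t`
-/

namespace Pool.Agent.J4H4.LA

open Complex Set Filter Topology
open scoped ComplexConjugate
open Pool.Agent.J4H1.JP (Xi diff_Xi Xi_neg Xi_conj)
open Pool.Agent.J4H2.DN (fy)

lemma fy_diff' (t : ℝ) : Differentiable ℂ (fy t) := by
  have h : Differentiable ℂ (fun w : ℂ => Xi (I * t + w)) := diff_Xi.comp (by fun_prop)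
  exact h

lemma FF_fy (t : ℝ) (w : ℂ) : FF t w = fy t w * conj (fy t (conj w)) := by
  unfold FF fy
  rw [← Xi_conj]
  congr 2
  simp only [map_add, map_mul, Complex.conj_conj, conj_I, conj_ofReal]
  ring

lemma FF_diff (t : ℝ) : Differentiable ℂ (FF t) := by
  have h1 : Differentiable ℂ (fun w : ℂ => Xi (I * t + w)) := diff_Xi.comp (by fun_prop)
  have h2 : Differentiable ℂ (fun w : ℂ => Xi (-(I * t) + w)) := diff_Xi.comp (by fun_prop)
  exact h1.mul h2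

lemma FF_ev (t : ℝ) (w : ℂ) : FF t (-w) = FF t w := by
  unfold FF
  have e1 : I * t + -w = -(-(I * t) + w) := by ring
  have e2 : -(I * t) + -w = -(I * t + w) := by ring
  rw [e1, e2, Xi_neg, Xi_neg, mul_comm]

lemma FF_cj (t : ℝ) (w : ℂ) : FF t (conj w) = conj (FF t w) := by
  rw [FF_fy, FF_fy, map_mul, Complex.conj_conj, Complex.conj_conj, mul_comm]

lemma FF_negt (t : ℝ) (w : ℂ) : FF (-t) w = FF t w := by
  unfold FF
  have e1 : I * ((-t : ℝ) : ℂ) + w = -(I * t) + w := by push_cast; ring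
  have e2 : -(I * ((-t : ℝ) : ℂ)) + w = I * t + w := by push_cast; ring
  rw [e1, e2, mul_comm]

lemma Lg_negt (m : ℕ) (t : ℝ) : Lg m (-t) = Lg m t := by
  unfold Lg
  have : FF (-t) = FF t := funext (FF_negt t)
  rw [this]

lemma FF_real (t x : ℝ) : FF t x = ((‖fy t x‖ ^ 2 : ℝ) : ℂ) := by
  rw [FF_fy, conj_ofReal, mul_conj, normSq_eq_norm_sq]

/-- derivatives of even functions -/
lemma iter_even {F : ℂ → ℂ} (hev : ∀ w, F (-w) = F w) (m : ℕ) (hm : ¬ Even m) :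
    iteratedDeriv m F 0 = 0 := by
  have h1 : (fun w => F (-w)) = F := funext hev
  have h2 := iteratedDeriv_comp_neg m F 0
  rw [h1, neg_zero, Nat.not_even_iff_odd.mp hm |>.neg_one_pow, neg_smul, one_smul] at h2
  exact self_eq_neg.mp h2

lemma Lg_odd {m : ℕ} (hm : ¬ Even m) (t : ℝ) : Lg m t = 0 := by
  unfold Lg
  rw [iter_even (FF_ev t) m hm, zero_re]

/-- logarithmic derivative -/
lemma FF_ld (t : ℝ) {w : ℂ} (h1 : fy t w ≠ 0) (h2 : fy t (conj w) ≠ 0) :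
    logDeriv (FF t) w = logDeriv (fy t) w + conj (logDeriv (fy t) (conj w)) := by
  have e : FF t = fun w => fy t w * conj (fy t (conj w)) := funext (FF_fy t)
  have h3 : HasDerivAt (fun w : ℂ => conj (fy t (conj w))) (conj (deriv (fy t) (conj w))) w := by
    have h4 := ((fy_diff' t (conj w)).hasDerivAt).conj_conj
    rw [Complex.conj_conj] at h4
    exact h4
  rw [e, logDeriv_mul (f := fy t) (g := fun w => conj (fy t (conj w))) w h1 ((map_ne_zero _).mpr h2)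
    (fy_diff' t w) h3.differentiableAt]
  congr 1
  rw [logDeriv_apply, h3.deriv, logDeriv_apply, map_div₀]

/-- from `fy t` to `FF t` -/
structure Hp (t ℓ r δ κ : ℝ) (m : ℕ) : Prop where
  rg : ∀ w : ℂ, (1 - 2 * δ) * r ≤ w.re → w.re ≤ 3 * r → |w.im| ≤ 3 * r →
    fy t w ≠ 0 ∧ ‖logDeriv (fy t) w - ((ℓ / 2 : ℝ) : ℂ)‖ ≤ κ * ℓ / 2
  nr : ∀ w : ℂ, 0 ≤ w.re → w.re ≤ (1 - 2 * δ) * r → |w.im| ≤ 2 * r →
    ‖fy t w‖ ≤ Real.exp (κ * m / 2) * ‖fy t (((1 - 2 * δ) * r : ℝ) + w.im * I)‖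

lemma Hp.prf {t ℓ r δ κ : ℝ} {m : ℕ} (H : Hp t ℓ r δ κ m) : Prf (FF t) ℓ r δ κ m := by
  refine ⟨FF_diff t, FF_ev t, FF_cj t, fun w h1 h2 h3 => ?_, fun w h1 h2 h3 => ?_⟩
  · obtain ⟨a1, a2⟩ := H.rg w h1 h2 h3
    obtain ⟨b1, b2⟩ := H.rg (conj w) (by rwa [conj_re]) (by rwa [conj_re]) (by rwa [conj_im, abs_neg])
    refine ⟨?_, ?_⟩
    · rw [FF_fy]
      exact mul_ne_zero a1 ((map_ne_zero _).mpr b1)
    · rw [FF_ld t a1 b1]
      have e : logDeriv (fy t) w + conj (logDeriv (fy t) (conj w)) - ℓ =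
          (logDeriv (fy t) w - ((ℓ / 2 : ℝ) : ℂ)) + conj (logDeriv (fy t) (conj w) - ((ℓ / 2 : ℝ) : ℂ)) := by
        rw [map_sub, conj_ofReal]
        push_cast
        ring
      rw [e]
      refine (norm_add_le _ _).trans ?_
      rw [Complex.norm_conj]
      linarith
  · have a1 := H.nr w h1 h2 h3
    have b1 := H.nr (conj w) (by rwa [conj_re]) (by rwa [conj_re]) (by rwa [conj_im, abs_neg])
    have e : (((1 - 2 * δ) * r : ℝ) : ℂ) + (conj w).im * I =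
        conj ((((1 - 2 * δ) * r : ℝ) : ℂ) + w.im * I) := by
      rw [conj_im]
      simp only [map_add, map_mul, conj_ofReal, conj_I]
      push_cast
      ring
    rw [e] at b1
    rw [FF_fy, FF_fy, norm_mul, norm_mul, Complex.norm_conj, Complex.norm_conj]
    calc ‖fy t w‖ * ‖fy t (conj w)‖ ≤ (Real.exp (κ * m / 2) * ‖fy t ((((1 - 2 * δ) * r : ℝ) : ℂ) + w.im * I)‖) *
          (Real.exp (κ * m / 2) * ‖fy t (conj ((((1 - 2 * δ) * r : ℝ) : ℂ) + w.im * I))‖) := by gcongr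
      _ = (Real.exp (κ * m / 2) * Real.exp (κ * m / 2)) * (‖fy t ((((1 - 2 * δ) * r : ℝ) : ℂ) + w.im * I)‖ *
          ‖fy t (conj ((((1 - 2 * δ) * r : ℝ) : ℂ) + w.im * I))‖) := by
          generalize ‖fy t ((((1 - 2 * δ) * r : ℝ) : ℂ) + w.im * I)‖ = A1
          generalize ‖fy t (conj ((((1 - 2 * δ) * r : ℝ) : ℂ) + w.im * I))‖ = A2
          ring
      _ = _ := by rw [← Real.exp_add]; congr 2; ring

/-- the constant -/
noncomputable def kap (δ : ℝ) : ℝ := (δ / 1000000) * δ / 10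

theorem Hp.pos {t ℓ r δ : ℝ} {m : ℕ} (H : Hp t ℓ r δ (kap δ) m) (hδ : 0 < δ) (hδ' : δ ≤ 1 / 4) (hr : 0 < r)
    (hℓ : ℓ * r = m) (hm1 : 1000000000000 ≤ (m : ℝ)) (hm2 : 10000 / δ ^ 2 ≤ (m : ℝ)) (hme : Even m) :
    0 < Lg m t := by
  refine H.prf.pos hδ' hδ hr hℓ rfl hm1 hm2 hme ?_
  rw [FF_real, ofReal_re]
  have h1 := (H.rg (r : ℂ) (by rw [ofReal_re]; nlinarith) (by rw [ofReal_re]; linarith)
    (by rw [ofReal_im, abs_zero]; linarith)).1
  have := norm_pos_iff.mpr h1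
  positivity

end Pool.Agent.J4H4.LA
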