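import Pool.Agent.J4H4.LA.Bas

set_option autoImplicit false

/-!
# Positivity for all `m ≥ c log (2 + |t|) + B`, `c > 1/2`
-/

namespace Pool.Agent.J4H4.LA

open Complex Set Filter Topology
open scoped ComplexConjugate
open H353.E H353.F
open Pool.Agent.J4H1.JP (Xi diff_Xi Xi_neg Xi_conj XX XX_sharp m4)
open Pool.Agent.J4H2.DN (fy)

lemma fy_XX (t : ℝ) (w : ℂ) : fy t w = XX (1 / 2 + I * t + w) := by
  unfold fy XX
  congr 1
  ring

/-- the logarithmic derivative of the gamma factor -/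
lemma gaD_log {s : ℂ} (h1 : 1 ≤ s.re) :
    ‖gaD 1 m4 s - ((1 / 2 * Real.log ‖s + 8‖ : ℝ) : ℂ)‖ ≤ 7 := by
  unfold gaD m4
  simp only [Finset.univ_unique, Finset.sum_singleton]
  have hlp := logpi
  set z : ℂ := (s - -4) / 2 with hz
  have hzre : 1 / 4 ≤ z.re := by
    rw [hz, show (2 : ℂ) = ((2 : ℝ) : ℂ) by norm_num, Complex.div_ofReal_re, sub_re, neg_re, re_ofNat]
    linarith
  have h3 := dig_aux hzre
  have hz2 : z + 2 = (s + 8) / 2 := by rw [hz]; ring
  have hpos : 0 < ‖s + 8‖ := by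
    have := re_le_norm (s + 8)
    rw [add_re, re_ofNat] at this
    linarith
  have hlog : ‖Complex.log (z + 2) - ((Real.log ‖s + 8‖ : ℝ) : ℂ)‖ ≤ 5 := by
    have hn : ‖z + 2‖ = ‖s + 8‖ / 2 := by rw [hz2, norm_div]; norm_num
    have e : Complex.log (z + 2) - ((Real.log ‖s + 8‖ : ℝ) : ℂ) =
        ((-Real.log 2 : ℝ) : ℂ) + (arg (z + 2) : ℂ) * I := by
      rw [Complex.log, hn, Real.log_div hpos.ne' (by norm_num)]
      push_cast
      ring
    rw [e]
    refine (norm_add_le _ _).trans ?_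
    rw [norm_mul, norm_I, mul_one, norm_real, norm_real, Real.norm_eq_abs, Real.norm_eq_abs, abs_neg]
    have ha := abs_arg_le_pi (z + 2)
    have hpi2 := Real.pi_lt_d2
    have h7 := Real.log_two_lt_d9
    have h8 : |Real.log 2| ≤ 1 := by
      rw [abs_of_pos (Real.log_pos (by norm_num))]
      linarith
    linarith
  have e : ((Real.log 1 / 2 : ℝ) : ℂ) + (((-(Real.log Real.pi) / 2 : ℝ) : ℂ) + logDeriv Gamma z / 2) -
      ((1 / 2 * Real.log ‖s + 8‖ : ℝ) : ℂ) = ((-(Real.log Real.pi) / 2 : ℝ) : ℂ) +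
      ((logDeriv Gamma z - Complex.log (z + 2)) / 2 + (Complex.log (z + 2) - ((Real.log ‖s + 8‖ : ℝ) : ℂ)) / 2) := by
    rw [Real.log_one]
    push_cast
    ring
  rw [e]
  refine (norm_add_le _ _).trans ?_
  have b1 : ‖((-(Real.log Real.pi) / 2 : ℝ) : ℂ)‖ ≤ 1 := by
    rw [norm_real, Real.norm_eq_abs, abs_le]
    constructor <;> linarith
  have b2 := norm_add_le ((logDeriv Gamma z - Complex.log (z + 2)) / 2)
    ((Complex.log (z + 2) - ((Real.log ‖s + 8‖ : ℝ) : ℂ)) / 2)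
  rw [norm_div, norm_div] at b2
  have h1 : ‖(2 : ℂ)‖ = 2 := by norm_num
  rw [h1] at b2
  linarith

/-- comparison of `|s + 8|` with `max |t| r` -/
lemma log_size {t r Y : ℝ} (hY : Y = max |t| r) (hY10 : 10 ≤ Y) (hr : 0 < r) {w : ℂ} (h1 : r / 2 ≤ w.re)
    (h2 : w.re ≤ 3 * r) (h3 : |w.im| ≤ 3 * r) :
    |Real.log ‖(1 / 2 + I * t + w : ℂ) + 8‖ - Real.log Y| ≤ 3 := by
  set s : ℂ := (1 / 2 + I * t + w : ℂ) + 8 with hs
  have hre : s.re = 17 / 2 + w.re := by
    rw [hs]
    simp only [add_re, I_mul_re, ofReal_im, re_ofNat]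
    norm_num
    ring
  have him : s.im = t + w.im := by
    rw [hs]
    simp only [add_im, I_mul_im, ofReal_re, im_ofNat]
    norm_num
  have hY0 : 0 < Y := by linarith
  have htY : |t| ≤ Y := by rw [hY]; exact le_max_left _ _
  have hrY : r ≤ Y := by rw [hY]; exact le_max_right _ _
  have hup : ‖s‖ ≤ 8 * Y := by
    refine (Complex.norm_le_abs_re_add_abs_im _).trans ?_
    rw [hre, him, abs_of_pos (by linarith)]
    have := abs_add_le t w.im
    linarith
  have hlo : Y / 8 ≤ ‖s‖ := by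
    rcases le_total |t| (4 * r) with h | h
    · have h5 : Y ≤ 4 * r := by rw [hY]; exact max_le h (by linarith)
      have := re_le_norm s
      rw [hre] at this
      linarith
    · have h5 : Y = |t| := by rw [hY]; exact max_eq_left (by linarith)
      have h6 := Complex.abs_im_le_norm s
      rw [him] at h6
      have h7 : |t| ≤ |t + w.im| + |w.im| := by
        have := abs_sub (t + w.im) w.im
        simpa using this
      linarith
  have hs0 : 0 < ‖s‖ := by linarith
  have h8 : Real.log 8 ≤ 3 := by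
    have : Real.log 8 = 3 * Real.log 2 := by
      rw [show (8 : ℝ) = 2 ^ 3 by norm_num, Real.log_pow]; norm_num
    rw [this]
    have := Real.log_two_lt_d9
    linarith
  have a1 := Real.log_le_log hs0 hup
  rw [Real.log_mul (by norm_num) hY0.ne'] at a1
  have a2 := Real.log_le_log (by positivity) hlo
  rw [Real.log_div hY0.ne' (by norm_num)] at a2
  rw [abs_le]
  constructor <;> linarith

/-- existence of the radius -/
lemma exists_rad {t m Y0 : ℝ} (hY0 : Real.exp 1 ≤ Y0) (hm : Y0 * Real.log Y0 < m) :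
    ∃ r : ℝ, 0 < r ∧ Y0 ≤ max |t| r ∧ Real.log (max |t| r) * r = m := by
  have hY0p : 0 < Y0 := (Real.exp_pos 1).trans_le hY0
  have hlog1 : 1 ≤ Real.log Y0 := by
    have := Real.log_le_log (Real.exp_pos 1) hY0
    rwa [Real.log_exp] at this
  have hm0 : 0 < m := by nlinarith
  have hcont : Continuous (fun r : ℝ => r * Real.log (max (max |t| r) Y0)) := by
    refine continuous_id.mul (Continuous.log (by fun_prop) fun r => ?_)
    have : Y0 ≤ max (max |t| r) Y0 := le_max_right _ _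
    linarith
  obtain ⟨r, hr, hre⟩ := intermediate_value_Icc (a := 0) (b := m) hm0.le hcont.continuousOn
    (show m ∈ Icc _ _ from ⟨by simp [hm0.le], by
      have h1 : Real.log Y0 ≤ Real.log (max (max |t| m) Y0) := Real.log_le_log hY0p (le_max_right _ _)
      nlinarith⟩)
  replace hre : r * Real.log (max (max |t| r) Y0) = m := hre
  have hr0 : 0 < r := by
    rcases eq_or_lt_of_le hr.1 with h | h
    · rw [← h] at hre
      simp at hre
      linarith
    · exact h
  have hY : Y0 ≤ max |t| r := by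
    by_contra hc
    push Not at hc
    rw [max_eq_right hc.le] at hre
    have : r < Y0 := (le_max_right _ _).trans_lt hc
    nlinarith
  refine ⟨r, hr0, hY, ?_⟩
  rw [max_eq_left hY] at hre
  rw [mul_comm]
  exact hre

/-- the general case -/
theorem gen_pos {c : ℝ} (hc : 1 / 2 < c) : ∃ B : ℝ, ∀ (t : ℝ) (m : ℕ), c * Real.log (2 + |t|) + B ≤ m → Even m →
    0 < Lg m t := by
  obtain ⟨η, hη⟩ : ∃ η : ℝ, η = min 1 ((c - 1 / 2) / 2) := ⟨_, rfl⟩
  have hη0 : 0 < η := by rw [hη]; exact lt_min one_pos (by linarith)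
  have hη1 : η ≤ 1 := by rw [hη]; exact min_le_left _ _
  have hηc : 1 / 2 + 2 * η ≤ c := by
    have : η ≤ (c - 1 / 2) / 2 := by rw [hη]; exact min_le_right _ _
    linarith
  have hc0 : 0 < c := by linarith
  obtain ⟨δ, hδd⟩ : ∃ δ : ℝ, δ = min (1 / 4) (η / (8 * c)) := ⟨_, rfl⟩
  have hδ : 0 < δ := by rw [hδd]; positivity
  have hδ' : δ ≤ 1 / 4 := by rw [hδd]; exact min_le_left _ _
  have hδc : (1 - 2 * δ) * c ≥ 1 / 2 + 3 / 2 * η := by
    have h1 : δ ≤ η / (8 * c) := by rw [hδd]; exact min_le_right _ _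
    rw [le_div_iff₀ (by positivity)] at h1
    nlinarith
  obtain ⟨κ, hκd⟩ : ∃ κ : ℝ, κ = kap δ := ⟨_, rfl⟩
  have hκ : 0 < κ := by rw [hκd]; unfold kap; positivity
  obtain ⟨B, hB, S⟩ := XX_sharp hη0 hη1
  obtain ⟨A, hA⟩ : ∃ A : ℝ, A = (9 + 2 * B ^ 2 / η) * 2 / κ + 24 / κ + 10 + c := ⟨_, rfl⟩
  have hA1 : 0 ≤ (9 + 2 * B ^ 2 / η) * 2 / κ := by positivity
  have hA2 : 0 ≤ 24 / κ := by positivity
  obtain ⟨Y0, hY0⟩ : ∃ Y0 : ℝ, Y0 = Real.exp A := ⟨_, rfl⟩
  have hY0A : A ≤ Y0 := by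
    rw [hY0]
    have := Real.add_one_le_exp A
    linarith
  have hY0l : Real.log Y0 = A := by rw [hY0, Real.log_exp]
  have hY0p : 0 < Y0 := by rw [hY0]; exact Real.exp_pos _
  refine ⟨Y0 * Real.log Y0 + 1 + 1000000000000 + 10000 / δ ^ 2 + 8 * B / κ, fun t m hm hme => ?_⟩
  have hlogt : 0 ≤ Real.log (2 + |t|) := Real.log_nonneg (by linarith [abs_nonneg t])
  have hcl : 0 ≤ c * Real.log (2 + |t|) := by positivity
  have hp1 : 0 ≤ Y0 * Real.log Y0 := by rw [hY0l]; nlinarith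
  have hp2 : 0 ≤ 10000 / δ ^ 2 := by positivity
  have hp3 : 0 ≤ 8 * B / κ := by positivity
  obtain ⟨r, hr, hYm, hℓ⟩ := exists_rad (t := t) (m := m) (Y0 := Y0) (by
    rw [hY0]
    exact Real.exp_le_exp.mpr (by linarith)) (by linarith)
  obtain ⟨Y, hYd⟩ : ∃ Y : ℝ, Y = max |t| r := ⟨_, rfl⟩
  rw [← hYd] at hYm hℓ
  obtain ⟨ℓ, hℓd⟩ : ∃ ℓ : ℝ, ℓ = Real.log Y := ⟨_, rfl⟩
  rw [← hℓd] at hℓ
  have hY10 : 10 ≤ Y := by linarith
  have hℓA : A ≤ ℓ := by
    rw [hℓd, ← hY0l]
    exact Real.log_le_log hY0p hYm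
  have hℓ0 : 0 < ℓ := by linarith
  -- `r ≥ c`
  have hrc : c ≤ r := by
    by_contra hcon
    push Not at hcon
    have h1 : Y = |t| := by
      rw [hYd]
      refine max_eq_left ?_
      by_contra h2
      push Not at h2
      have : Y = r := by rw [hYd]; exact max_eq_right h2.le
      linarith
    have h2 : Real.log |t| ≤ Real.log (2 + |t|) := Real.log_le_log (by linarith) (by linarith)
    rw [h1] at hℓd
    have h3 : (m : ℝ) ≤ c * Real.log (2 + |t|) := by
      rw [← hℓ, hℓd]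
      have h4 : 0 ≤ Real.log |t| := by rw [← hℓd]; exact hℓ0.le
      calc Real.log |t| * r ≤ Real.log |t| * c := by gcongr
        _ ≤ Real.log (2 + |t|) * c := by gcongr
        _ = _ := mul_comm _ _
    linarith
  have hb : 1 / 2 + 3 / 2 * η ≤ (1 - 2 * δ) * r := by
    have : (1 - 2 * δ) * c ≤ (1 - 2 * δ) * r := by
      have : 0 ≤ 1 - 2 * δ := by linarith
      gcongr
    linarith
  have hbr : (1 - 2 * δ) * r ≤ r := by nlinarith
  have hbr2 : r / 2 ≤ (1 - 2 * δ) * r := by nlinarith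
  -- bounds for `XX`
  have hsre : ∀ w : ℂ, (1 / 2 + I * t + w : ℂ).re = 1 / 2 + w.re := fun w => by
    simp only [add_re, I_mul_re, ofReal_im]
    norm_num
  have hsim : ∀ w : ℂ, (1 / 2 + I * t + w : ℂ).im = t + w.im := fun w => by
    simp only [add_im, I_mul_im, ofReal_re]
    norm_num
  have hm0 : (0 : ℝ) ≤ m := Nat.cast_nonneg m
  have hκℓ : (9 + 2 * B ^ 2 / η) * 2 ≤ κ * ℓ := by
    have h1 : (9 + 2 * B ^ 2 / η) * 2 / κ ≤ ℓ := by linarith
    rw [div_le_iff₀ hκ] at h1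
    linarith
  have hκ24 : 24 ≤ κ * ℓ := by
    have h1 : 24 / κ ≤ ℓ := by linarith
    rw [div_le_iff₀ hκ] at h1
    linarith
  have hκB : 8 * B ≤ κ * m := by
    have h1 : 8 * B / κ ≤ m := by linarith
    rw [div_le_iff₀ hκ] at h1
    linarith
  have H : Hp t ℓ r δ (kap δ) m := by
    rw [← hκd]
    refine ⟨fun w h1 h2 h3 => ?_, fun w h1 h2 h3 => ?_⟩
    · have hre : (1 + η) + η / 2 ≤ (1 / 2 + I * t + w : ℂ).re := by rw [hsre]; linarith
      have hder := lam_der S (z := 1 / 2 + I * t + w) (by linarith)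
      have hq := quot_ne S (z := 1 / 2 + I * t + w) (by linarith)
      have hQ := Qf_bound S hη0 (z := 1 / 2 + I * t + w) hre
      have hne : fy t w ≠ 0 := by rw [fy_XX]; exact hq.2.1
      refine ⟨hne, ?_⟩
      have hd : HasDerivAt (fy t) (XX (1 / 2 + I * t + w) * (gaD 1 m4 (1 / 2 + I * t + w) +
          Qf XX (gaf 1 m4) (1 / 2 + I * t + w))) w := by
        have e : fy t = fun w => XX (1 / 2 + I * t + w) := funext (fy_XX t)
        rw [e]
        have h5 : HasDerivAt (fun w : ℂ => 1 / 2 + I * t + w) 1 w := (hasDerivAt_id w).const_add _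
        have h6 := HasDerivAt.comp w hder h5
        rw [mul_one] at h6
        exact h6
      have e1 : logDeriv (fy t) w = gaD 1 m4 (1 / 2 + I * t + w) + Qf XX (gaf 1 m4) (1 / 2 + I * t + w) := by
        rw [logDeriv_apply, hd.deriv, fy_XX, mul_div_cancel_left₀ _ hq.2.1]
      have h7 := gaD_log (s := 1 / 2 + I * t + w) (by linarith)
      have h8 := log_size hYd hY10 hr (w := w) (by linarith) h2 h3
      rw [e1]
      have e2 : gaD 1 m4 (1 / 2 + I * t + w) + Qf XX (gaf 1 m4) (1 / 2 + I * t + w) - ((ℓ / 2 : ℝ) : ℂ) =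
          (gaD 1 m4 (1 / 2 + I * t + w) - ((1 / 2 * Real.log ‖(1 / 2 + I * t + w : ℂ) + 8‖ : ℝ) : ℂ)) +
          Qf XX (gaf 1 m4) (1 / 2 + I * t + w) +
          (((Real.log ‖(1 / 2 + I * t + w : ℂ) + 8‖ - Real.log Y) / 2 : ℝ) : ℂ) := by
        rw [hℓd]
        push_cast
        ring
      rw [e2]
      refine (norm_add_le _ _).trans ?_
      have h9 := norm_add_le (gaD 1 m4 (1 / 2 + I * t + w) -
        ((1 / 2 * Real.log ‖(1 / 2 + I * t + w : ℂ) + 8‖ : ℝ) : ℂ)) (Qf XX (gaf 1 m4) (1 / 2 + I * t + w))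
      have h10 : ‖(((Real.log ‖(1 / 2 + I * t + w : ℂ) + 8‖ - Real.log Y) / 2 : ℝ) : ℂ)‖ ≤ 3 / 2 := by
        rw [norm_real, Real.norm_eq_abs, abs_div, abs_two]
        linarith
      linarith
    · set b := (1 - 2 * δ) * r with hbd
      have hmul : ∀ s : ℂ, 1 ≤ s.re → s.re ≤ 1 / 2 + b →
          ‖gaf 1 m4 s‖ ≤ Real.exp (6 * b) * ‖gaf 1 m4 (((1 / 2 + b : ℝ) : ℂ) + s.im * I)‖ := fun s hs1 hs2 => by
        have h5 := right_ge S.gp hs1 (a := 1 / 2 + b - s.re) (by linarith)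
        have e : s + ((1 / 2 + b - s.re : ℝ) : ℂ) = ((1 / 2 + b : ℝ) : ℂ) + s.im * I := by
          apply Complex.ext
          · simp
          · simp
        rw [e] at h5
        refine h5.trans ?_
        have : 6 * ((1 : ℕ) : ℝ) * (1 / 2 + b - s.re) ≤ 6 * b := by
          push_cast
          linarith
        gcongr
      set s : ℂ := 1 / 2 + I * t + w with hs
      have hs1 : s.re = 1 / 2 + w.re := hsre w
      have hs2 : s.im = t + w.im := hsim w
      have hfin : ‖XX s‖ ≤ B * (Real.exp (6 * b) * ‖gaf 1 m4 (((1 / 2 + b : ℝ) : ℂ) + s.im * I)‖) := by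
        rcases le_total (1 + η) s.re with h | h
        · refine (S.hi s h).trans ?_
          have := hmul s (by linarith) (by linarith)
          gcongr
        · refine (S.strip s (by linarith) h).trans ?_
          have := hmul (((1 + η : ℝ) : ℂ) + s.im * I) (by simp; linarith) (by simp; linarith)
          have e : (((1 + η : ℝ) : ℂ) + s.im * I).im = s.im := by simp
          rw [e] at this
          gcongr
      have hlo := S.lo (((1 / 2 + b : ℝ) : ℂ) + s.im * I) (by simp; linarith)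
      have e3 : fy t ((b : ℂ) + w.im * I) = XX (((1 / 2 + b : ℝ) : ℂ) + s.im * I) := by
        rw [fy_XX, hs2]
        congr 1
        push_cast
        ring
      rw [fy_XX, e3]
      have hBB : B * B ≤ Real.exp (2 * B) := by
        have h5 := Real.add_one_le_exp B
        have : Real.exp (2 * B) = Real.exp B * Real.exp B := by rw [← Real.exp_add]; congr 1; ring
        rw [this]
        have : B ≤ Real.exp B := by linarith
        gcongr
      calc ‖XX s‖ ≤ B * (Real.exp (6 * b) * ‖gaf 1 m4 (((1 / 2 + b : ℝ) : ℂ) + s.im * I)‖) := hfin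
        _ ≤ B * (Real.exp (6 * b) * (B * ‖XX (((1 / 2 + b : ℝ) : ℂ) + s.im * I)‖)) := by gcongr
        _ = (B * B) * Real.exp (6 * b) * ‖XX (((1 / 2 + b : ℝ) : ℂ) + s.im * I)‖ := by ring
        _ ≤ Real.exp (2 * B) * Real.exp (6 * b) * ‖XX (((1 / 2 + b : ℝ) : ℂ) + s.im * I)‖ := by gcongr
        _ = Real.exp (2 * B + 6 * b) * ‖XX (((1 / 2 + b : ℝ) : ℂ) + s.im * I)‖ := by rw [Real.exp_add]
        _ ≤ Real.exp (κ * m / 2) * ‖XX (((1 / 2 + b : ℝ) : ℂ) + s.im * I)‖ := by
            have h6 : 2 * B + 6 * b ≤ κ * m / 2 := by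
              have h7 : 24 * r ≤ κ * ℓ * r := by gcongr
              have h8 : κ * ℓ * r = κ * m := by rw [← hℓ]; ring
              linarith
            gcongr
  exact H.pos hδ hδ' hr hℓ (by linarith) (by linarith) hme

end Pool.Agent.J4H4.LA
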