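import Pool.Agent.J4H1.JP.Stm2

set_option autoImplicit false

/-!
# Project LA (helper4): Laguerre inequalities of all orders, statements of the parts

`FF t w = ξ(1/2 + it + w) ξ(1/2 - it + w)`, an even entire function of `w`, real on the real axis, `FF t a = |ξ(1/2 + a + it)|²` for real `a`.
`Lg m t` is its `m`-th derivative at `0`.

* `S_thr`: `ζ ≠ 0` in `Re s > θ` gives `Lg m t ≥ 0` for `m ≥ c log (2 + |t|) + B`, `c > θ - 1/2` (`θ = 1` unconditional);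
* `S_cnv`: if this holds for some `c < 1/2`, then `ζ` has a zero-free half-plane;
* `S_den`: all but `C T exp (-c K)` of the `t ∈ [T, 2T]` satisfy `Lg m t ≥ 0` for all `m ≥ K`.
-/

namespace Pool.Agent.J4H4.LA

open Complex Filter Topology MeasureTheory
open scoped ComplexConjugate
open Pool.Agent.J4H1.JP (Xi)

noncomputable section

def FF (t : ℝ) (w : ℂ) : ℂ := Xi (I * t + w) * Xi (-(I * t) + w)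

def Lg (m : ℕ) (t : ℝ) : ℝ := (iteratedDeriv m (FF t) 0).re

/-- the Laguerre inequalities of all orders `m ≥ c log (2 + |t|) + B` -/
def HL (c : ℝ) : Prop := ∃ B : ℝ, ∀ (t : ℝ) (m : ℕ), c * Real.log (2 + |t|) + B ≤ m → 0 ≤ Lg m t

def S_thr : Prop := ∀ θ : ℝ, 1 / 2 ≤ θ → θ ≤ 1 → (∀ s : ℂ, θ < s.re → riemannZeta s ≠ 0) →
  ∀ c : ℝ, θ - 1 / 2 < c → HL c

def S_cnv : Prop := ∀ c : ℝ, c < 1 / 2 → HL c → ∃ δ : ℝ, 0 < δ ∧ ∀ s : ℂ, 1 - δ < s.re → riemannZeta s ≠ 0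

def S_den : Prop := ∃ c C : ℝ, 0 < c ∧ ∀ T K : ℝ, C ≤ T → C ≤ K →
  volume {t : ℝ | T ≤ t ∧ t ≤ 2 * T ∧ ∃ m : ℕ, K ≤ m ∧ Lg m t < 0} ≤ ENNReal.ofReal (C * T * Real.exp (-(c * K)))

/-- Abstract lemma for `S_cnv` (`l = log t`, `f = FF t / Gt t ^ 2`, `t_up`, `t_up2`, `t_lo` of `J4H66/JP`).
PROOF. `f x = P x + N x`, `P` the terms of order `≥ a l` (nonnegative), `N` the others. Cauchy on `|w| = 1/2 - s`: for `x ≤ 1/2`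
`|N x| ≤ (a l + 1) exp (l (1/2 - (1 - τ) s + δ + a log (1/(1 - 2s)))) ≤ exp (l (1/2 - s (1 - 2a)/4))`, the same for `x = a1, a2` near `1/2`
(with slightly larger `x`). Cauchy-Schwarz: `P(a1)² ≤ P(x) P(a2)` for `a1² = x a2`, `a1 = 1/2 + 2δ`, `P(a1) ≥ exp (l (a1 - δ))/2`,
`P(a2) ≤ 2 exp (l (a2 + δ))`, so `P(x) ≥ exp (l (2 a1 - a2 - 4δ)) > |N x|` for `1/2 - y ≤ x ≤ 1/2`, `y`, `δ` small with respect to `s (1 - 2a)`. -/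
def S_lab : Prop := ∀ a : ℝ, 0 ≤ a → a < 1 / 2 → ∃ τ s1 : ℝ, 0 < τ ∧ 0 < s1 ∧ ∀ s : ℝ, 0 < s → s ≤ s1 →
  ∃ y δ L : ℝ, 0 < y ∧ 0 < δ ∧ ∀ l : ℝ, L ≤ l → ∀ f : ℂ → ℂ, Differentiable ℂ f →
  (∀ m : ℕ, (iteratedDeriv m f 0).im = 0) → (∀ m : ℕ, a * l ≤ m → 0 ≤ (iteratedDeriv m f 0).re) →
  (∀ w : ℂ, ‖w‖ ≤ 8 → ‖f w‖ ≤ Real.exp (l * (max |w.re| (1 / 2) + δ))) →
  (∀ w : ℂ, ‖w‖ ≤ 8 → |w.re| ≤ 1 / 2 - s → ‖f w‖ ≤ Real.exp (l * (1 / 2 - (1 - τ) * s + δ))) →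
  (∀ w : ℂ, ‖w‖ ≤ 8 → 1 / 2 + δ ≤ w.re → Real.exp (l * (w.re - δ)) ≤ ‖f w‖) →
  ∀ x : ℝ, 1 / 2 - y ≤ x → x ≤ 1 / 2 → f x ≠ 0

/-- Abstract positivity. PROOF: `H353.F.Loc` for `Ψ s = F (r (s - 1/2))`, real saddle. -/
def S_pos : Prop := ∀ δ : ℝ, 0 < δ → δ ≤ 1 / 4 → ∃ κ M : ℝ, 0 < κ ∧ ∀ (F : ℂ → ℂ) (ℓ r : ℝ) (m : ℕ), M ≤ m → Even m →
  ℓ * r = m → 0 < r → Differentiable ℂ F → (∀ w, F (-w) = F w) → (∀ w, F (conj w) = conj (F w)) →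
  (∀ w : ℂ, (1 - 2 * δ) * r ≤ w.re → w.re ≤ 3 * r → |w.im| ≤ 3 * r → F w ≠ 0 ∧ ‖logDeriv F w - ℓ‖ ≤ κ * ℓ) →
  (∀ w : ℂ, 0 ≤ w.re → w.re ≤ (1 - 2 * δ) * r → |w.im| ≤ 2 * r →
    ‖F w‖ ≤ Real.exp (κ * m) * ‖F (((1 - 2 * δ) * r : ℝ) + w.im * I)‖) →
  0 < (F r).re → 0 < (iteratedDeriv m F 0).re

end

end Pool.Agent.J4H4.LA
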