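import Pool.Agent.H353R7.F4
import Pool.Agent.J4H4.LA.Stm

set_option autoImplicit false

/-!
# Positivity of even derivatives at the centre
-/

namespace Pool.Agent.J4H4.LA

open Complex Set MeasureTheory intervalIntegral Filter Topology
open scoped ComplexConjugate
open H353.E H353.F

variable {Ψ P : ℂ → ℂ} {n : ℕ} {δ κ G : ℝ}

/-- real saddle point -/
lemma real_saddle (L : Loc Ψ P n δ κ G 0 0) (hκ0 : 0 < κ) (hP : ∀ x : ℝ, 1 - δ ≤ x → x ≤ 1 + δ → (P x).im = 0) :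
    ∃ x : ℝ, Sad P n δ κ 0 0 (x : ℂ) ∧ 0 < x ∧ 1 - δ ≤ x ∧ x ≤ 1 + δ := by
  have hks := L.ksm
  have hn := L.npos
  have hδ := L.hδ
  have hδ' := L.hδ'
  have hκ' := L.hκ'
  have hreg : ∀ x : ℝ, 1 - 2 * κ ≤ x → x ≤ 1 + 2 * κ → (x : ℂ) ∈ Reg δ 0 := fun x h1 h2 => by
    refine ⟨?_, ?_, ?_⟩
    · rw [ofReal_re]; linarith
    · rw [ofReal_re]; linarith
    · rw [ofReal_im, abs_zero]; norm_num
  have hcont : ContinuousOn (fun x : ℝ => x * (P x).re) (Icc (1 - 2 * κ) (1 + 2 * κ)) := by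
    intro x hx
    have h1 := L.contP (hreg x hx.1 hx.2)
    have h2 : ContinuousAt (fun x : ℝ => (P x).re) x :=
      (Complex.continuous_re.continuousAt).comp (ContinuousAt.comp (f := fun x : ℝ => (x : ℂ)) h1
        Complex.continuous_ofReal.continuousAt)
    exact (continuousAt_id.mul h2).continuousWithinAt
  have hb : ∀ x : ℝ, 1 - 2 * κ ≤ x → x ≤ 1 + 2 * κ → (1 - κ) * n ≤ (P x).re ∧ (P x).re ≤ (1 + κ) * n :=
    fun x h1 h2 => ⟨L.Plow (hreg x h1 h2), (re_le_norm _).trans (L.Pup (hreg x h1 h2))⟩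
  have hlo : (1 - 2 * κ) * (P ((1 - 2 * κ : ℝ) : ℂ)).re ≤ n := by
    have h1 := (hb (1 - 2 * κ) le_rfl (by linarith)).2
    calc (1 - 2 * κ) * (P ((1 - 2 * κ : ℝ) : ℂ)).re ≤ (1 - 2 * κ) * ((1 + κ) * n) := by
          have : 0 ≤ 1 - 2 * κ := by linarith
          gcongr
      _ = ((1 - 2 * κ) * (1 + κ)) * n := by ring
      _ ≤ 1 * n := by
          have : (1 - 2 * κ) * (1 + κ) ≤ 1 := by nlinarith
          gcongr
      _ = n := one_mul _
  have hhi : (n : ℝ) ≤ (1 + 2 * κ) * (P ((1 + 2 * κ : ℝ) : ℂ)).re := by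
    have h1 := (hb (1 + 2 * κ) (by linarith) le_rfl).1
    calc (n : ℝ) = 1 * n := (one_mul _).symm
      _ ≤ ((1 + 2 * κ) * (1 - κ)) * n := by
          have : 1 ≤ (1 + 2 * κ) * (1 - κ) := by nlinarith
          gcongr
      _ = (1 + 2 * κ) * ((1 - κ) * n) := by ring
      _ ≤ _ := by gcongr
  obtain ⟨x, hx, hxe⟩ := intermediate_value_Icc (by linarith : 1 - 2 * κ ≤ 1 + 2 * κ) hcont ⟨hlo, hhi⟩
  have hx12 : 1 - δ ≤ x := by linarith [hx.1]
  have hx32 : x ≤ 1 + δ := by linarith [hx.2]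
  refine ⟨x, ⟨?_, ?_, le_rfl, le_rfl⟩, by linarith, hx12, hx32⟩
  · rw [ofReal_zero, zero_add]
    have hi := hP x hx12 hx32
    have e : P x = (((P x).re : ℝ) : ℂ) := by
      apply Complex.ext
      · rw [ofReal_re]
      · rw [ofReal_im, hi]
    rw [e]
    have hxe' : x * (P x).re = n := hxe
    have h5 := congrArg (fun z : ℝ => (z : ℂ)) hxe'
    simp only [ofReal_mul, ofReal_natCast] at h5
    exact h5
  · have e : (x : ℂ) - 1 = ((x - 1 : ℝ) : ℂ) := by push_cast; ring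
    rw [e, Complex.norm_real, Real.norm_eq_abs, abs_le]
    constructor <;> linarith [hx.1, hx.2]

/-- the half circle integral has positive real part -/
lemma IA_pos (L : Loc Ψ P n δ κ G 0 0) {x : ℝ} (S : Sad P n δ κ 0 0 (x : ℂ)) (hx : 0 < x)
    (him : (Ψ (cc 0 + x)).im = 0) (hre : 0 < (Ψ (cc 0 + x)).re) : 0 < (IA Ψ n x (cc 0)).re := by
  have hn := L.npos
  have hn1 := L.hn
  have hδ := L.hδ
  have hq0 := Real.sqrt_pos.mpr hn
  have hq2 : Real.sqrt n ^ 2 = n := Real.sq_sqrt hn.le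
  obtain ⟨ha0, ha2, ha3, ha4⟩ := ang_facts L
  have hE := E_small L
  have hξ : |(0 : ℝ)| ≤ 2 / n := by rw [abs_zero]; positivity
  have hxn : ‖(x : ℂ)‖ = x := by rw [norm_real, Real.norm_eq_abs, abs_of_pos hx]
  have harg : arg (x : ℂ) = 0 := arg_ofReal_of_nonneg hx.le
  have e0 : (((0 + 0 : ℝ) : ℂ)) = 0 := by norm_num
  set q := Real.sqrt n with hq
  set g := (Ψ (cc 0 + x)).re with hg
  have hgc : Ψ (cc 0 + x) = (g : ℂ) := by
    apply Complex.ext
    · rw [ofReal_re]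
    · rw [ofReal_im, him]
  have hgn : ‖Ψ (cc 0 + x)‖ = g := by
    rw [hgc, norm_real, Real.norm_eq_abs, abs_of_pos hre]
  -- outer part
  have h1 := IA_split L.diff.continuous L S (s := cc 0)
    (M := Real.exp (-(n * δ / 20)) * g) (fun θ h1 h2 => by
      have := outer_right L S hξ h1 h2 (τ := 0) (by rw [norm_zero]; linarith)
      rw [e0, zero_add, add_zero, zero_add, hgn] at this
      exact this)
  rw [hxn, harg] at h1
  simp only [ofReal_zero, mul_zero, zero_mul, neg_zero, Complex.exp_zero, one_mul] at h1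
  -- central part
  have hpt : ∀ u : ℝ, |u| ≤ ang δ → ‖Ψ (cc 0 + x * cexp (u * I)) * cexp (-(n * u * I)) -
      (g : ℂ) * (Real.exp (-(n * u ^ 2 / 2)) : ℝ)‖ ≤ g * (1 / 100 * Real.exp (-(n * u ^ 2 / 5))) := fun u hu => by
    have := pt L S hξ hu
    rw [e0, zero_add, zero_add, hgn, hgc] at this
    exact this
  have hF : IntervalIntegrable (fun u : ℝ => Ψ (cc 0 + x * cexp (u * I)) * cexp (-(n * u * I))) volume
      (-ang δ) (ang δ) := by
    have : Continuous (fun u : ℝ => Ψ (cc 0 + x * cexp (u * I)) * cexp (-(n * u * I))) := by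
      have := L.diff.continuous
      fun_prop
    exact this.intervalIntegrable _ _
  have hgc' : Continuous (fun u : ℝ => (g : ℂ) * (Real.exp (-(n * u ^ 2 / 2)) : ℝ)) := by fun_prop
  have hg5 : Continuous (fun u : ℝ => g * (1 / 100 * Real.exp (-(n * u ^ 2 / 5)))) := by fun_prop
  have h2 : ‖(∫ u in (-ang δ)..(ang δ), Ψ (cc 0 + x * cexp (u * I)) * cexp (-(n * u * I))) -
      ∫ u in (-ang δ)..(ang δ), (g : ℂ) * (Real.exp (-(n * u ^ 2 / 2)) : ℝ)‖ ≤ g * (1 / 100 * (4 / q)) := by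
    rw [← intervalIntegral.integral_sub hF (hgc'.intervalIntegrable _ _)]
    refine (intervalIntegral.norm_integral_le_of_norm_le (by linarith)
      (Filter.Eventually.of_forall fun u hu => ?_) (hg5.intervalIntegrable _ _)).trans ?_
    · exact hpt u (abs_le.mpr ⟨by linarith [hu.1], hu.2⟩)
    · rw [intervalIntegral.integral_const_mul, intervalIntegral.integral_const_mul]
      gcongr
      exact gauss_up hn ha0.le
  have h3 : (∫ u in (-ang δ)..(ang δ), (g : ℂ) * (Real.exp (-(n * u ^ 2 / 2)) : ℝ)).re =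
      g * ∫ u in (-ang δ)..(ang δ), Real.exp (-(n * u ^ 2 / 2)) := by
    rw [intervalIntegral.integral_const_mul, intervalIntegral.integral_ofReal, re_ofReal_mul, ofReal_re]
  have h4 := gauss_low (n := (n : ℝ)) hn (a := ang δ) (by linarith)
  rw [← hq] at h4
  have h5 : g * (1 / q) ≤ g * ∫ u in (-ang δ)..(ang δ), Real.exp (-(n * u ^ 2 / 2)) := by gcongr
  have h6 : 4 * (Real.exp (-(n * δ / 20)) * g) ≤ 1 / 10 / q * g := by
    have h7 : 4 * Real.exp (-(n * δ / 20)) ≤ 1 / 10 / q := by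
      have h8 : 4 * (1 / (n : ℝ) ^ 4) ≤ 1 / 10 / q := by
        rw [mul_one_div, div_div, div_le_div_iff₀ (by positivity) (by positivity)]
        have hqn : q ≤ n := by
          rw [hq]
          refine Real.sqrt_le_iff.mpr ⟨hn.le, ?_⟩
          nlinarith
        have h9 : 40 * (n : ℝ) ≤ n ^ 4 := by
          have : 40 ≤ (n : ℝ) ^ 3 := by
            calc (40 : ℝ) ≤ 1000000000000 := by norm_num
              _ ≤ n := hn1
              _ = n ^ 1 := by ring
              _ ≤ (n : ℝ) ^ 3 := pow_le_pow_right₀ (by linarith) (by norm_num)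
          calc 40 * (n : ℝ) ≤ n ^ 3 * n := by gcongr
            _ = n ^ 4 := by ring
        linarith
      linarith
    calc 4 * (Real.exp (-(n * δ / 20)) * g) = 4 * Real.exp (-(n * δ / 20)) * g := by ring
      _ ≤ 1 / 10 / q * g := by gcongr
  have h7 := (abs_le.mp ((Complex.abs_re_le_norm _).trans h1)).1
  have h8 := (abs_le.mp ((Complex.abs_re_le_norm _).trans h2)).1
  rw [sub_re] at h7 h8
  rw [h3] at h8
  have e1 : g * (1 / 100 * (4 / q)) = 4 / 100 * (g * (1 / q)) := by ring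
  have e2 : 1 / 10 / q * g = 1 / 10 * (g * (1 / q)) := by ring
  have hpos : 0 < g * (1 / q) := by positivity
  rw [e1] at h8
  rw [e2] at h6
  linarith

/-- positivity of the derivative at the centre -/
theorem loc_pos (L : Loc Ψ P n δ κ G 0 0) (hκ0 : 0 < κ) (hfe : ∀ s : ℂ, Ψ s = conj (Ψ (1 - conj s)))
    (hP : ∀ x : ℝ, 1 - δ ≤ x → x ≤ 1 + δ → (P x).im = 0)
    (him : ∀ x : ℝ, 1 - δ ≤ x → x ≤ 1 + δ → (Ψ (cc 0 + x)).im = 0)
    (hre : ∀ x : ℝ, 1 - δ ≤ x → x ≤ 1 + δ → 0 < (Ψ (cc 0 + x)).re) (hn : Even n) :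
    0 < (iteratedDeriv n Ψ (1 / 2)).re := by
  obtain ⟨x, S, hx0, hx1, hx2⟩ := real_saddle L hκ0 hP
  have h1 := IA_pos L S hx0 (him x hx1 hx2) (hre x hx1 hx2)
  have hc := circ_IA L.diff (ε := 1) (fun s => by rw [one_mul]; exact hfe s) hx0 n (1 / 2)
  have e1 : (1 : ℂ) - conj (1 / 2 : ℂ) = 1 / 2 := by
    simp only [map_div₀, map_one, map_ofNat]
    norm_num
  have e2 : cc 0 = 1 / 2 := by unfold cc; simp
  rw [e2] at h1
  rw [hc, e1, hn.neg_one_pow, one_mul, one_mul, re_ofReal_mul, add_re, conj_re]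
  have : 0 < (n.factorial / (2 * Real.pi * x ^ n) : ℝ) := by positivity
  have h2 : 0 < (IA Ψ n x (1 / 2)).re + (IA Ψ n x (1 / 2)).re := by linarith
  exact mul_pos this h2

end Pool.Agent.J4H4.LA
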