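import Pool.Agent.J4H4.LA.Pos
import Pool.Agent.J4H2.DN.Sad

set_option autoImplicit false

/-!
# `S_pos`
-/

namespace Pool.Agent.J4H4.LA

open Complex Set MeasureTheory intervalIntegral Filter Topology
open scoped ComplexConjugate
open H353.E H353.F
open Pool.Agent.J4H2.DN (seg)

/-- the hypotheses on the right of the line -/
structure Prf (F : ℂ → ℂ) (ℓ r δ κ : ℝ) (m : ℕ) : Prop where
  diff : Differentiable ℂ F
  ev : ∀ w, F (-w) = F w
  cj : ∀ w, F (conj w) = conj (F w)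
  rg : ∀ w : ℂ, (1 - 2 * δ) * r ≤ w.re → w.re ≤ 3 * r → |w.im| ≤ 3 * r → F w ≠ 0 ∧ ‖logDeriv F w - ℓ‖ ≤ κ * ℓ
  nr : ∀ w : ℂ, 0 ≤ w.re → w.re ≤ (1 - 2 * δ) * r → |w.im| ≤ 2 * r →
    ‖F w‖ ≤ Real.exp (κ * m) * ‖F (((1 - 2 * δ) * r : ℝ) + w.im * I)‖

variable {F : ℂ → ℂ} {ℓ r δ κ : ℝ} {m : ℕ}

/-- derivative under scaling -/
lemma iter_scale (hF : Differentiable ℂ F) (r : ℝ) (m : ℕ) :
    iteratedDeriv m (fun s : ℂ => F (r * (s - 1 / 2))) (1 / 2) = (r : ℂ) ^ m * iteratedDeriv m F 0 := by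
  have e : (fun s : ℂ => F (r * (s - 1 / 2))) =
      fun s : ℂ => (fun z => F (z + (-(r : ℂ) / 2))) ((r : ℂ) * s) := by
    funext z
    congr 1
    ring
  have hd : Differentiable ℂ (fun z : ℂ => F (z + (-(r : ℂ) / 2))) := by fun_prop
  rw [e, iteratedDeriv_comp_const_mul (hd.contDiff) (r : ℂ)]
  have h2 := congrFun (iteratedDeriv_comp_add_const m F (-(r : ℂ) / 2)) ((r : ℂ) * (1 / 2))
  simp only
  rw [h2]
  congr 2
  ring

lemma Prf.up0 (H : Prf F ℓ r δ κ m) (hδ' : δ ≤ 1 / 4) (hδ : 0 < δ) (hr : 0 < r) (hℓ : ℓ * r = m)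
    (hκ : 0 ≤ κ) (hκ1 : κ ≤ 1) {u : ℂ} (h1 : 1 - 2 * δ ≤ u.re) (h2 : u.re ≤ 2) (h3 : |u.im| ≤ 2) :
    ‖F (r * u)‖ ≤ ‖F r‖ * Real.exp (m * (u.re - 1) + 4 * (κ * m)) := by
  have hm : (0 : ℝ) ≤ m := Nat.cast_nonneg m
  have h := seg H.diff (μ := (ℓ : ℂ)) (M := κ * ℓ) (p := (r : ℂ)) (w := r * u) (fun t ht => by
    have e : (r : ℂ) + t * (r * u - r) = r * (1 + t * (u - 1)) := by ring
    have h3' := abs_le.mp h3
    have er : ((r : ℂ) * (1 + t * (u - 1))).re = r * (1 + t * (u.re - 1)) := by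
      rw [re_ofReal_mul, add_re, re_ofReal_mul, sub_re, one_re]
    have ei : ((r : ℂ) * (1 + t * (u - 1))).im = r * (t * u.im) := by
      rw [im_ofReal_mul, add_im, im_ofReal_mul, sub_im, one_im]
      ring
    rw [e]
    refine H.rg _ ?_ ?_ ?_
    · rw [er, mul_comm]
      refine mul_le_mul_of_nonneg_left ?_ hr.le
      nlinarith [ht.1, ht.2]
    · rw [er, mul_comm 3]
      refine mul_le_mul_of_nonneg_left ?_ hr.le
      nlinarith [ht.1, ht.2]
    · rw [ei, abs_mul, abs_mul, abs_of_pos hr, abs_of_nonneg ht.1, mul_comm 3]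
      refine mul_le_mul_of_nonneg_left ?_ hr.le
      nlinarith [ht.1, ht.2, abs_nonneg u.im])
  refine h.trans ?_
  refine mul_le_mul_of_nonneg_left (Real.exp_le_exp.mpr ?_) (norm_nonneg _)
  have e1 : ((ℓ : ℂ) * (r * u - r)).re = m * (u.re - 1) := by
    rw [re_ofReal_mul, sub_re, re_ofReal_mul, ofReal_re, ← hℓ]
    ring
  have e2 : ‖(r : ℂ) * u - r‖ = r * ‖u - 1‖ := by
    have : (r : ℂ) * u - r = r * (u - 1) := by ring
    rw [this, norm_mul, norm_real, Real.norm_eq_abs, abs_of_pos hr]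
  have e3 : ‖u - 1‖ ≤ 4 := by
    refine (Complex.norm_le_abs_re_add_abs_im _).trans ?_
    rw [sub_re, sub_im, one_re, one_im, sub_zero]
    have : |u.re - 1| ≤ 1 := by rw [abs_le]; constructor <;> linarith
    linarith
  rw [e1, e2]
  have e4 : κ * ℓ * (r * ‖u - 1‖) = κ * m * ‖u - 1‖ := by rw [← hℓ]; ring
  rw [e4]
  have : κ * m * ‖u - 1‖ ≤ κ * m * 4 := by gcongr
  linarith

lemma Prf.up1 (H : Prf F ℓ r δ κ m) (hδ' : δ ≤ 1 / 4) (hδ : 0 < δ) (hr : 0 < r) (hℓ : ℓ * r = m)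
    (hκ : 0 ≤ κ) (hκ1 : κ ≤ 1) {u : ℂ} (h1 : 0 ≤ u.re) (h2 : u.re ≤ 2) (h3 : |u.im| ≤ 2) :
    ‖F (r * u)‖ ≤ ‖F r‖ * Real.exp (m * (max |u.re| (1 - δ) - 1) + 5 * (κ * m)) := by
  have hm : (0 : ℝ) ≤ m := Nat.cast_nonneg m
  have hκm : 0 ≤ κ * m := by positivity
  rcases le_total (1 - 2 * δ) u.re with h | h
  · refine (H.up0 hδ' hδ hr hℓ hκ hκ1 h h2 h3).trans ?_
    refine mul_le_mul_of_nonneg_left (Real.exp_le_exp.mpr ?_) (norm_nonneg _)
    have : u.re ≤ max |u.re| (1 - δ) := (le_abs_self _).trans (le_max_left _ _)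
    have : (m : ℝ) * (u.re - 1) ≤ m * (max |u.re| (1 - δ) - 1) := by gcongr
    linarith
  · have h4 := H.nr (r * u) (by rw [re_ofReal_mul]; positivity)
      (by rw [re_ofReal_mul, mul_comm]; gcongr)
      (by rw [im_ofReal_mul, abs_mul, abs_of_pos hr, mul_comm]; gcongr)
    have h5 := H.up0 hδ' hδ hr hℓ hκ hκ1 (u := ((1 - 2 * δ : ℝ) : ℂ) + u.im * I) (by simp) (by simp; linarith)
      (by simpa using h3)
    have e1 : (r : ℂ) * (((1 - 2 * δ : ℝ) : ℂ) + u.im * I) = (((1 - 2 * δ) * r : ℝ) : ℂ) + ((r : ℂ) * u).im * I := by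
      rw [im_ofReal_mul]
      push_cast
      ring
    have e2 : (((1 - 2 * δ : ℝ) : ℂ) + u.im * I).re = 1 - 2 * δ := by simp
    rw [e1, e2] at h5
    have h6 : (1 - 2 * δ - 1 : ℝ) ≤ max |u.re| (1 - δ) - 1 := by
      have := le_max_right |u.re| (1 - δ)
      linarith
    calc ‖F (r * u)‖ ≤ _ := h4
      _ ≤ Real.exp (κ * m) * (‖F r‖ * Real.exp (m * (1 - 2 * δ - 1) + 4 * (κ * m))) := by gcongr
      _ = ‖F r‖ * Real.exp (m * (1 - 2 * δ - 1) + 5 * (κ * m)) := by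
          rw [mul_left_comm, ← Real.exp_add]
          congr 2
          ring
      _ ≤ _ := by gcongr

lemma Prf.up2 (H : Prf F ℓ r δ κ m) (hδ' : δ ≤ 1 / 4) (hδ : 0 < δ) (hr : 0 < r) (hℓ : ℓ * r = m)
    (hκ : 0 ≤ κ) (hκ1 : κ ≤ 1) {u : ℂ} (h2 : |u.re| ≤ 2) (h3 : |u.im| ≤ 2) :
    ‖F (r * u)‖ ≤ ‖F r‖ * Real.exp (m * (max |u.re| (1 - δ) - 1) + 5 * (κ * m)) := by
  rcases le_total 0 u.re with h | h
  · exact H.up1 hδ' hδ hr hℓ hκ hκ1 h (abs_le.mp h2).2 h3
  · have h4 := H.up1 hδ' hδ hr hℓ hκ hκ1 (u := -u) (by rw [neg_re]; linarith) (by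
      rw [neg_re]; linarith [(abs_le.mp h2).1]) (by rw [neg_im, abs_neg]; exact h3)
    rw [neg_re, abs_neg, mul_neg, H.ev] at h4
    exact h4

/-- the local structure -/
theorem Prf.loc (H : Prf F ℓ r δ κ m) (hδ' : δ ≤ 1 / 4) (hδ : 0 < δ) (hr : 0 < r) (hℓ : ℓ * r = m)
    {κ₀ : ℝ} (hκ0 : κ₀ = δ / 1000000) (hκ : κ = κ₀ * δ / 10)
    (hm1 : 1000000000000 ≤ (m : ℝ)) (hm2 : 10000 / δ ^ 2 ≤ (m : ℝ)) :
    Loc (fun s => F (r * (s - 1 / 2))) (fun u => r * logDeriv F (r * u)) m δ κ₀ (‖F r‖ * Real.exp (-m)) 0 0 := by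
  have hm : (0 : ℝ) < m := by linarith
  have hκ₀ : 0 < κ₀ := by rw [hκ0]; positivity
  have hκ1 : κ₀ ≤ 1 := by rw [hκ0]; linarith
  have hκp : 0 < κ := by rw [hκ]; positivity
  have hκs : κ ≤ κ₀ / 10 := by
    rw [hκ]
    have : κ₀ * δ ≤ κ₀ * 1 := by gcongr; linarith
    linarith
  have hℓ0 : 0 < ℓ := by
    by_contra hc
    push Not at hc
    nlinarith
  have hcc : ∀ u : ℂ, (r : ℂ) * (cc 0 + u - 1 / 2) = r * u := fun u => by
    unfold cc
    push_cast
    ring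
  have hrr : ∀ u : ℂ, 1 - 2 * δ ≤ u.re → u.re ≤ 3 → |u.im| ≤ 3 → F (r * u) ≠ 0 ∧
      ‖(r : ℂ) * logDeriv F (r * u) - m‖ ≤ κ * m := fun u h1 h2 h3 => by
    obtain ⟨h4, h5⟩ := H.rg (r * u) (by rw [re_ofReal_mul, mul_comm]; gcongr)
      (by rw [re_ofReal_mul, mul_comm]; gcongr) (by rw [im_ofReal_mul, abs_mul, abs_of_pos hr, mul_comm]; gcongr)
    refine ⟨h4, ?_⟩
    have hmc : (m : ℂ) = r * ℓ := by
      have h6 := congrArg (fun z : ℝ => (z : ℂ)) hℓ
      simp only [ofReal_mul, ofReal_natCast] at h6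
      rw [← h6, mul_comm]
    have e : (r : ℂ) * logDeriv F (r * u) - m = r * (logDeriv F (r * u) - ℓ) := by
      rw [hmc]; ring
    rw [e, norm_mul, norm_real, Real.norm_eq_abs, abs_of_pos hr, ← hℓ]
    calc r * ‖logDeriv F (r * u) - ℓ‖ ≤ r * (κ * ℓ) := by gcongr
      _ = κ * (ℓ * r) := by ring
  have hPd : ∀ u : ℂ, 1 - 2 * δ ≤ u.re → u.re ≤ 3 → |u.im| ≤ 3 →
      DifferentiableAt ℂ (fun u : ℂ => (r : ℂ) * logDeriv F (r * u)) u := fun u h1 h2 h3 => by
    have h4 := (hrr u h1 h2 h3).1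
    have h5 : DifferentiableAt ℂ (deriv F) (r * u) := H.diff.deriv _
    have h6 : DifferentiableAt ℂ F (r * u) := H.diff _
    have h7 : DifferentiableAt ℂ (logDeriv F) (r * u) := h5.div h6 h4
    have h8 : DifferentiableAt ℂ (fun u : ℂ => (r : ℂ) * u) u := by fun_prop
    exact (DifferentiableAt.comp u h7 h8).const_mul _
  refine
    { diff := ?_, fe := ⟨1, norm_one, fun s => ?_⟩, der := fun u h1 h2 h3 => ?_, dP := fun u h1 h2 h3 => ?_,
      ddP := fun u h1 h2 h3 => ?_, up := fun u h1 h2 => ?_, lo := fun x h1 h2 => ?_, hG := ?_, hδ := hδ,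
      hδ' := by linarith, hκ := hκ₀.le, hκ' := hκ0.le, hX := le_rfl, hn := hm1, hnδ := hm2 }
  · have := H.diff
    fun_prop
  · show F (r * (s - 1 / 2)) = 1 * conj (F (r * (1 - conj s - 1 / 2)))
    rw [one_mul, ← H.cj, ← H.ev]
    congr 1
    simp only [map_mul, map_sub, map_one, map_div₀, map_ofNat, Complex.conj_conj, conj_ofReal]
    ring
  · have h4 := (hrr u (by linarith) (by linarith) (by linarith)).1
    have h5 : HasDerivAt (fun s : ℂ => (r : ℂ) * (s - 1 / 2)) r (cc 0 + u) :=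
      (((hasDerivAt_id (cc 0 + u)).sub_const (1 / 2)).const_mul (r : ℂ)).congr_deriv (mul_one _)
    have h6 := (H.diff ((r : ℂ) * (cc 0 + u - 1 / 2))).hasDerivAt
    have h7 := HasDerivAt.comp (cc 0 + u) h6 h5
    refine h7.congr_deriv ?_
    show deriv F (r * (cc 0 + u - 1 / 2)) * r = F (r * (cc 0 + u - 1 / 2)) * (r * logDeriv F (r * u))
    rw [hcc]
    simp only [logDeriv, Pi.div_apply]
    field_simp
  · refine ((hrr u (by linarith) (by linarith) (by linarith)).2).trans ?_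
    gcongr
    linarith
  · have hb : ∀ v ∈ Metric.closedBall u δ, 1 - 2 * δ ≤ v.re ∧ v.re ≤ 3 ∧ |v.im| ≤ 3 := fun v hv => by
      rw [Metric.mem_closedBall, dist_eq_norm] at hv
      have h4 := abs_le.mp ((Complex.abs_re_le_norm _).trans hv)
      have h5 := abs_le.mp ((Complex.abs_im_le_norm _).trans hv)
      rw [sub_re] at h4
      rw [sub_im] at h5
      have h6 := abs_le.mp h3
      refine ⟨by linarith, by linarith, ?_⟩
      rw [abs_le]
      constructor <;> linarith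
    have h4 := Complex.norm_deriv_le_of_forall_mem_sphere_norm_le (c := u) (R := δ) (C := κ * m)
      (f := fun v : ℂ => (r : ℂ) * logDeriv F (r * v) - m) hδ
      ⟨fun w hw => by
          obtain ⟨a1, a2, a3⟩ := hb w (Metric.ball_subset_closedBall hw)
          exact ((hPd w a1 a2 a3).sub_const _).differentiableWithinAt,
        fun w hw => by
          obtain ⟨a1, a2, a3⟩ := hb w (Metric.closure_ball_subset_closedBall hw)
          exact ((hPd w a1 a2 a3).sub_const _).continuousAt.continuousWithinAt⟩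
      (fun w hw => by
        obtain ⟨a1, a2, a3⟩ := hb w (Metric.sphere_subset_closedBall hw)
        exact (hrr w a1 a2 a3).2)
    have h5 := hPd u (by linarith) (by linarith) (by linarith)
    refine ⟨_, h5.hasDerivAt, ?_⟩
    have e : deriv (fun v : ℂ => (r : ℂ) * logDeriv F (r * v) - m) u =
        deriv (fun u : ℂ => (r : ℂ) * logDeriv F (r * u)) u := by
      rw [deriv_sub_const]
    rw [e] at h4
    refine h4.trans ?_
    rw [div_le_iff₀ hδ, hκ]
    have : 0 < κ₀ * δ * m := by positivity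
    nlinarith
  · show ‖F (r * (cc 0 + u - 1 / 2))‖ ≤ _
    rw [hcc]
    refine (H.up2 hδ' hδ hr hℓ hκp.le (by linarith) (by linarith) h2).trans ?_
    rw [mul_assoc, ← Real.exp_add]
    refine mul_le_mul_of_nonneg_left (Real.exp_le_exp.mpr ?_) (norm_nonneg _)
    have : κ * m ≤ κ₀ / 10 * m := by gcongr
    nlinarith
  · show _ ≤ ‖F (r * (cc 0 + ((x + 1 : ℝ) : ℂ) - 1 / 2))‖
    rw [hcc]
    have hx : x = 0 := le_antisymm h2 h1
    rw [hx, zero_add, ofReal_one, mul_one, mul_one, mul_assoc, ← Real.exp_add]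
    have : Real.exp (-(m : ℝ) + (m - κ₀ * m)) ≤ 1 := by
      rw [Real.exp_le_one_iff]
      nlinarith
    calc ‖F r‖ * Real.exp (-(m : ℝ) + (m - κ₀ * m)) ≤ ‖F r‖ * 1 := by gcongr
      _ = _ := mul_one _
  · have h4 := (hrr 1 (by simp; linarith) (by simp) (by simp)).1
    rw [mul_one] at h4
    have := norm_pos_iff.mpr h4
    positivity

lemma Prf.real (H : Prf F ℓ r δ κ m) (x : ℝ) : (F x).im = 0 ∧ (deriv F x).im = 0 := by
  have h1 : ∀ w, conj (F (conj w)) = F w := fun w => by rw [H.cj, Complex.conj_conj]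
  constructor
  · have := H.cj x
    rw [conj_ofReal] at this
    exact Complex.conj_eq_iff_im.mp this.symm
  · have h2 : deriv F (x : ℂ) = conj (deriv F (x : ℂ)) := by
      have h3 : HasDerivAt F (conj (deriv F (conj (x : ℂ)))) (x : ℂ) := by
        have h4 := ((H.diff (conj (x : ℂ))).hasDerivAt).conj_conj
        rw [Complex.conj_conj] at h4
        refine h4.congr_of_eventuallyEq (Eventually.of_forall fun w => ?_)
        simp only [Function.comp]
        exact (h1 w).symm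
      rw [conj_ofReal] at h3
      exact h3.deriv
    exact Complex.conj_eq_iff_im.mp h2.symm

/-- **abstract positivity** -/
theorem Prf.pos (H : Prf F ℓ r δ κ m) (hδ' : δ ≤ 1 / 4) (hδ : 0 < δ) (hr : 0 < r) (hℓ : ℓ * r = m)
    (hκ : κ = (δ / 1000000) * δ / 10)
    (hm1 : 1000000000000 ≤ (m : ℝ)) (hm2 : 10000 / δ ^ 2 ≤ (m : ℝ)) (hme : Even m)
    (hpos : 0 < (F r).re) : 0 < (iteratedDeriv m F 0).re := by
  have hm : (0 : ℝ) < m := by linarith
  have L := H.loc hδ' hδ hr hℓ rfl hκ hm1 hm2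
  have hcc : ∀ u : ℂ, (r : ℂ) * (cc 0 + u - 1 / 2) = r * u := fun u => by
    unfold cc
    push_cast
    ring
  have e2 : cc 0 = 1 / 2 := by unfold cc; simp
  have hrx : ∀ x : ℝ, (r : ℂ) * x = ((r * x : ℝ) : ℂ) := fun x => by push_cast; ring
  have hne : ∀ x : ℝ, 1 - δ ≤ x → x ≤ 1 + δ → (F ((r * x : ℝ) : ℂ)).re ≠ 0 := fun x h1 h2 h3 => by
    have h4 := (H.rg ((r * x : ℝ) : ℂ) (by rw [ofReal_re, mul_comm]; gcongr; linarith)
      (by rw [ofReal_re, mul_comm]; gcongr; linarith) (by rw [ofReal_im, abs_zero]; positivity)).1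
    exact h4 (Complex.ext h3 (H.real _).1)
  have hps : ∀ x : ℝ, 1 - δ ≤ x → x ≤ 1 + δ → 0 < (F ((r * x : ℝ) : ℂ)).re := fun x h1 h2 => by
    by_contra hc
    push Not at hc
    have hcont : Continuous (fun y : ℝ => (F ((r * y : ℝ) : ℂ)).re) := by
      have := H.diff.continuous
      fun_prop
    have h1' : 0 < (F ((r * 1 : ℝ) : ℂ)).re := by rwa [mul_one]
    obtain ⟨y, hy, hy0⟩ := intermediate_value_uIcc (a := x) (b := 1) hcont.continuousOn
      (Set.mem_uIcc.mpr (Or.inl ⟨hc, h1'.le⟩))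
    have hy' : 1 - δ ≤ y ∧ y ≤ 1 + δ := by
      rcases Set.mem_uIcc.mp hy with h | h
      · exact ⟨by linarith [h.1], by linarith [h.2]⟩
      · exact ⟨by linarith [h.1], by linarith [h.2]⟩
    exact hne y hy'.1 hy'.2 hy0
  have key := loc_pos L (by positivity) (fun s => ?_) (fun x h1 h2 => ?_) (fun x h1 h2 => ?_) (fun x h1 h2 => ?_) hme
  · rw [iter_scale H.diff, ← ofReal_pow, re_ofReal_mul] at key
    have : 0 < r ^ m := by positivity
    exact (mul_pos_iff_of_pos_left this).mp key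
  · have := L.fe
    show F (r * (s - 1 / 2)) = conj (F (r * (1 - conj s - 1 / 2)))
    rw [← H.cj, ← H.ev]
    congr 1
    simp only [map_mul, map_sub, map_one, map_div₀, map_ofNat, Complex.conj_conj, conj_ofReal]
    ring
  · rw [hrx, logDeriv_apply]
    obtain ⟨a1, a2⟩ := H.real (r * x)
    rw [im_ofReal_mul, Complex.div_im, a1, a2]
    simp
  · show (F (r * (cc 0 + x - 1 / 2))).im = 0
    rw [hcc, hrx]
    exact (H.real _).1
  · show 0 < (F (r * (cc 0 + x - 1 / 2))).re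
    rw [hcc, hrx]
    exact hps x h1 h2

theorem t_pos : S_pos := by
  intro δ hδ hδ'
  refine ⟨(δ / 1000000) * δ / 10, max 1000000000000 (10000 / δ ^ 2), by positivity, ?_⟩
  intro F ℓ r m hM hme hℓ hr hd hev hcj hrg hnr hpos
  have H : Prf F ℓ r δ ((δ / 1000000) * δ / 10) m := ⟨hd, hev, hcj, hrg, hnr⟩
  exact H.pos hδ' hδ hr hℓ rfl ((le_max_left _ _).trans hM) ((le_max_right _ _).trans hM) hme hpos

end Pool.Agent.J4H4.LA
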